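import Pool.Agent.L7h8.BE.Stm
import Pool.Agent.N718.DC.Stm

/-!
Project BE (helper8), part EXC: prime values of `u + y w` for almost all `(u, w)` with `w` positive.
-/

set_option autoImplicit false
set_option linter.all false

namespace Pool.Agent.L7h47.BE

open Finset Filter Topology
open Pool.Agent.N718.LB (V3 cr dt)
open Pool.Agent.N718.DC
open Pool.Agent.L7h8.BE (S_EXC)

/-- the data -/
def dt3 (M q' : ℕ) (y₁ : ℤ) (T Hb : ℕ) (γ δ : Fin 3 → ℤ) (ρ j : Fin 3 → ℕ) : Data 3 where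
  M := M
  g := 1
  q' := q'
  y₀ := y₁
  T := T
  s := fun _ => 1
  L := fun _ => M
  r := fun i t => γ i + M * ρ i + (y₁ + M * t) * (δ i + M * (Hb * j i))
  u := fun _ => (-(Hb : ℤ), 0)
  v := fun _ => ((Hb : ℤ), (Hb : ℤ))

/-- the vector `u` -/
def uu (M q' : ℕ) (γ : Fin 3 → ℤ) (ρ : Fin 3 → ℕ) (b : Fin 3 → ℤ × ℤ) : Fin 3 → ℤ :=
  fun i => γ i + M * (ρ i + q' * (b i).1)

/-- the vector `w` -/
def ww (M Hb : ℕ) (δ : Fin 3 → ℤ) (j : Fin 3 → ℕ) (b : Fin 3 → ℤ × ℤ) : Fin 3 → ℤ :=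
  fun i => δ i + M * (Hb * j i + (b i).2)

theorem val_eq (M q' : ℕ) (y₁ : ℤ) (T Hb : ℕ) (γ δ : Fin 3 → ℤ) (ρ j : Fin 3 → ℕ)
    (b : Fin 3 → ℤ × ℤ) (i : Fin 3) (t : ℕ) :
    (dt3 M q' y₁ T Hb γ δ ρ j).val i t (b i) =
      uu M q' γ ρ b i + (y₁ + M * t) * ww M Hb δ j b i := by
  unfold Data.val G dt3 uu ww Data.q Data.y
  push_cast
  ring

/-- the numerical conditions on the parameters -/
structure Num (W M B K H q' T Hb : ℕ) (y₁ : ℤ) (γ δ : Fin 3 → ℤ) : Prop where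
  hW : 1 ≤ W
  hM : 1 ≤ M
  hB : 1 ≤ B
  hK : 1 ≤ K
  l0 : (4096 : ℝ) ≤ Real.log Hb
  lW : (W : ℝ) ≤ Real.log Hb
  lM : (M : ℝ) ≤ Real.log Hb
  lB : (B : ℝ) ≤ Real.log Hb
  lK : (K : ℝ) ≤ Real.log Hb
  ly : |(y₁ : ℝ)| ≤ Real.log Hb
  lγ : ∀ i, |(γ i : ℝ)| ≤ Real.log Hb
  lδ : ∀ i, |(δ i : ℝ)| ≤ Real.log Hb
  lH : Real.log H ≤ 2 * Real.log Hb
  lH' : Real.log Hb ≤ Real.log H
  hHb : 1 ≤ Hb
  hq' : q'.Prime
  q1 : Real.log H ^ 2 ≤ q'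
  q2 : (q' : ℝ) ≤ 4 * Real.log H ^ 2
  T1 : Real.log H ^ 9 ≤ T
  T2 : (T : ℝ) ≤ 2 * Real.log H ^ 9
  Hb1 : (H : ℝ) ≤ M * q' * Hb
  y1 : 2 * (B : ℤ) * K ≤ y₁

theorem ok_of_num {W M B K H q' T Hb : ℕ} {y₁ y₀ : ℤ} {γ δ : Fin 3 → ℤ}
    (N : Num W M B K H q' T Hb y₁ γ δ) (h2 : 2 ∣ M) (hMW : ∀ p : ℕ, p.Prime → p ≤ W → p ∣ M)
    (hy : (M : ℤ) ∣ y₁ - y₀) (hco : ∀ i, IsCoprime (γ i + y₀ * δ i) (M : ℤ))
    (ρ j : Fin 3 → ℕ) (hρ : ∀ i, ρ i < q') (hj : ∀ i, M * (Hb * j i) ≤ 2 * K * H) :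
    (dt3 M q' y₁ T Hb γ δ ρ j).Ok 20 W Hb := by
  set l : ℝ := Real.log Hb with hl
  set L : ℝ := Real.log H with hL
  have l0 := N.l0
  rw [← hl] at l0
  have lpos : (0 : ℝ) < l := by linarith
  have l1 : (1 : ℝ) ≤ l := by linarith
  have hLl : L ≤ 2 * l := N.lH
  have hlL : l ≤ L := N.lH'
  have hq3 : (q' : ℝ) ≤ l ^ 3 := by
    have h1 : (q' : ℝ) ≤ 4 * L ^ 2 := N.q2
    have h2 : L ^ 2 ≤ (2 * l) ^ 2 := pow_le_pow_left₀ (by linarith) hLl 2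
    nlinarith [sq_nonneg l]
  have hT10 : (T : ℝ) ≤ l ^ 10 := by
    have h1 : (T : ℝ) ≤ 2 * L ^ 9 := N.T2
    have h2 : L ^ 9 ≤ (2 * l) ^ 9 := pow_le_pow_left₀ (by linarith) hLl 9
    have h3 : (2 * l) ^ 9 = 512 * l ^ 9 := by ring
    have h4 : l ^ 10 = l * l ^ 9 := by ring
    have h5 : 0 ≤ l ^ 9 := by positivity
    nlinarith
  have hpow : ∀ m k : ℕ, m ≤ k → l ^ m ≤ l ^ k := fun m k h => pow_le_pow_right₀ l1 h
  have hyt : ∀ t < T, |((y₁ + M * t : ℤ) : ℝ)| ≤ l ^ 12 := by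
    intro t ht
    push_cast
    have h1 : |(y₁ : ℝ) + M * t| ≤ |(y₁ : ℝ)| + |(M : ℝ) * t| := abs_add_le _ _
    have h2 : |(M : ℝ) * t| = M * t := abs_of_nonneg (by positivity)
    have h3 : (t : ℝ) ≤ T := by exact_mod_cast ht.le
    have h4 : (M : ℝ) * t ≤ l * l ^ 10 :=
      mul_le_mul N.lM (h3.trans hT10) (Nat.cast_nonneg _) lpos.le
    have h5 : l * l ^ 10 = l ^ 11 := by ring
    have h6 : l ≤ l ^ 11 := by simpa using hpow 1 11 (by norm_num)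
    have h7 : l ^ 12 = l * l ^ 11 := by ring
    have h8 : 0 ≤ l ^ 11 := by positivity
    have h9 := N.ly
    rw [← hl] at h9
    nlinarith
  have hHr : (H : ℝ) ≤ l ^ 4 * Hb := by
    have h1 := N.Hb1
    have h2 : (M : ℝ) * q' ≤ l * l ^ 3 := mul_le_mul N.lM hq3 (Nat.cast_nonneg _) lpos.le
    calc (H : ℝ) ≤ M * q' * Hb := h1
      _ ≤ (l * l ^ 3) * Hb := mul_le_mul_of_nonneg_right h2 (Nat.cast_nonneg _)
      _ = _ := by ring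
  have hHb1 : (1 : ℝ) ≤ Hb := by exact_mod_cast N.hHb
  refine
    { hW := N.hW
      hM := N.hM
      h2 := h2
      hMW := hMW
      hM' := ?_
      hg := one_dvd _
      hq' := N.hq'
      hqM := ?_
      hqW := ?_
      hq := ?_
      hT := ?_
      hT' := ?_
      hqT := ?_
      hy := ?_
      hs := fun _ => Or.inl rfl
      hL := fun _ => N.hM
      hL' := ?_
      hr := ?_
      hLM := fun _ p _ h => h
      hLq := fun _ p _ h => Or.inl h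
      co := ?_
      hbox := ?_
      hu := ?_ }
  · show (M : ℝ) ≤ l ^ 20
    exact N.lM.trans (by simpa using hpow 1 20 (by norm_num))
  · show ¬ q' ∣ M
    intro h
    have h1 := Nat.le_of_dvd N.hM h
    have h2 : (q' : ℝ) ≤ M := by exact_mod_cast h1
    have h3 : L ^ 2 ≤ q' := N.q1
    have h4 : (M : ℝ) ≤ l := N.lM
    nlinarith
  · show W ≤ q'
    have h3 : L ^ 2 ≤ q' := N.q1
    have h4 : (W : ℝ) ≤ l := N.lW
    have h5 : (W : ℝ) ≤ q' := by nlinarith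
    exact_mod_cast h5
  · show (((1 * q' : ℕ)) : ℝ) ≤ l ^ 20
    rw [one_mul]
    exact hq3.trans (hpow 3 20 (by norm_num))
  · show l ^ (2 * 3 + 3) ≤ (T : ℝ)
    have h1 : L ^ 9 ≤ T := N.T1
    have h2 : l ^ 9 ≤ L ^ 9 := pow_le_pow_left₀ lpos.le hlL 9
    exact h2.trans h1
  · show (T : ℝ) ≤ l ^ 20
    exact hT10.trans (hpow 10 20 (by norm_num))
  · show l ^ 2 ≤ (q' : ℝ)
    have h1 : L ^ 2 ≤ q' := N.q1
    have h2 : l ^ 2 ≤ L ^ 2 := pow_le_pow_left₀ lpos.le hlL 2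
    exact h2.trans h1
  · intro t ht
    show |((y₁ + M * t : ℤ) : ℝ)| ≤ l ^ 20
    exact (hyt t ht).trans (hpow 12 20 (by norm_num))
  · intro i
    show (M : ℝ) ≤ l ^ 20
    exact N.lM.trans (by simpa using hpow 1 20 (by norm_num))
  · intro i t ht
    show |((γ i + M * ρ i + (y₁ + M * t) * (δ i + M * (Hb * j i)) : ℤ) : ℝ)| ≤ Hb * l ^ 20
    have e1 : ((γ i + M * ρ i + (y₁ + M * t) * (δ i + M * (Hb * j i)) : ℤ) : ℝ) =
        (γ i : ℝ) + (M : ℝ) * ρ i + ((y₁ + M * t : ℤ) : ℝ) * ((δ i : ℝ) + (M : ℝ) * (Hb * j i)) := by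
      push_cast; ring
    rw [e1]
    have a1 : |(γ i : ℝ)| ≤ l := N.lγ i
    have a2 : |(M : ℝ) * ρ i| ≤ l ^ 4 := by
      rw [abs_of_nonneg (by positivity)]
      have h1 : (ρ i : ℝ) ≤ q' := by exact_mod_cast (hρ i).le
      calc (M : ℝ) * ρ i ≤ l * l ^ 3 := mul_le_mul N.lM (h1.trans hq3) (Nat.cast_nonneg _) lpos.le
        _ = _ := by ring
    have a3 : |(M : ℝ) * (Hb * j i)| ≤ l ^ 6 * Hb := by
      rw [abs_of_nonneg (by positivity)]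
      have h1 : (M : ℝ) * (Hb * j i) ≤ 2 * K * H := by exact_mod_cast hj i
      have h2 : (K : ℝ) * H ≤ l * (l ^ 4 * Hb) := mul_le_mul N.lK hHr (Nat.cast_nonneg _) lpos.le
      have h3 : l ^ 6 * Hb = l * (l * (l ^ 4 * Hb)) := by ring
      have h4 : 0 ≤ l * (l ^ 4 * Hb) := by positivity
      nlinarith
    have a4 : |(δ i : ℝ)| ≤ l := N.lδ i
    have a5 : |(δ i : ℝ) + (M : ℝ) * (Hb * j i)| ≤ l ^ 7 * Hb := by
      have h1 := abs_add_le (δ i : ℝ) ((M : ℝ) * (Hb * j i))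
      have h2 : l ^ 7 * Hb = l * (l ^ 6 * Hb) := by ring
      have h3 : l ≤ l ^ 6 * Hb := by
        have : l ≤ l ^ 6 := by simpa using hpow 1 6 (by norm_num)
        nlinarith [pow_pos lpos 6]
      have h4 : 0 ≤ l ^ 6 * Hb := by positivity
      nlinarith
    have a6 : |((y₁ + M * t : ℤ) : ℝ) * ((δ i : ℝ) + (M : ℝ) * (Hb * j i))| ≤ l ^ 19 * Hb := by
      rw [abs_mul]
      calc _ ≤ l ^ 12 * (l ^ 7 * Hb) := mul_le_mul (hyt t ht) a5 (abs_nonneg _) (by positivity)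
        _ = _ := by ring
    have b1 := abs_add_le ((γ i : ℝ) + (M : ℝ) * ρ i)
      (((y₁ + M * t : ℤ) : ℝ) * ((δ i : ℝ) + (M : ℝ) * (Hb * j i)))
    have b2 := abs_add_le (γ i : ℝ) ((M : ℝ) * ρ i)
    have c1 : l ≤ l ^ 19 * Hb := by
      have : l ≤ l ^ 19 := by simpa using hpow 1 19 (by norm_num)
      nlinarith [pow_pos lpos 19]
    have c2 : l ^ 4 ≤ l ^ 19 * Hb := by
      have : l ^ 4 ≤ l ^ 19 := hpow 4 19 (by norm_num)
      nlinarith [pow_pos lpos 19]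
    have c3 : (Hb : ℝ) * l ^ 20 = l * (l ^ 19 * Hb) := by ring
    have c4 : 0 ≤ l ^ 19 * Hb := by positivity
    nlinarith
  · intro i t ht
    show IsCoprime (γ i + M * ρ i + (y₁ + M * t) * (δ i + M * (Hb * j i))) ((M : ℕ) : ℤ)
    obtain ⟨k, hk⟩ := hy
    have e1 : γ i + M * ρ i + (y₁ + M * t) * (δ i + M * (Hb * j i)) =
        (γ i + y₀ * δ i) + (M : ℤ) * (ρ i + (k + t) * δ i + (y₁ + M * t) * (Hb * j i)) := by
      have : y₁ = y₀ + M * k := by linarith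
      rw [this]; ring
    rw [e1]
    exact (IsCoprime.add_mul_left_left (hco i) _)
  · intro i
    show inbox Hb (-(Hb : ℤ), 0) ((Hb : ℤ), (Hb : ℤ))
    unfold inbox
    simp only
    refine ⟨le_rfl, ?_, le_rfl, ?_, ?_, le_rfl⟩ <;> omega
  · intro i
    show (Hb : ℝ) / l ≤ (((Hb : ℤ)) : ℝ) - ((-(Hb : ℤ) : ℤ) : ℝ) ∧ (Hb : ℝ) / l ≤ (((Hb : ℤ)) : ℝ) - ((0 : ℤ) : ℝ)
    push_cast
    have h1 : (Hb : ℝ) / l ≤ Hb := div_le_self (Nat.cast_nonneg _) l1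
    constructor <;> linarith

end Pool.Agent.L7h47.BE
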