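import Pool.Agent.L7h47.BE.Exc

/-!
Project BE (helper8), part EXC: covering by the exceptional sets and the count.
-/

set_option autoImplicit false
set_option linter.all false

namespace Pool.Agent.L7h47.BE

open Finset Filter Topology
open Pool.Agent.N718.LB (V3 cr dt)
open Pool.Agent.N718.DC
open Pool.Agent.L7h8.BE (S_EXC)

/-- further numerical conditions -/
structure Num2 (M B K H q' Hb J : ℕ) (γ δ : Fin 3 → ℤ) : Prop where
  c1 : 2 * B * H < M * q' * Hb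
  c2 : ∀ i, |γ i| < B * H
  c3 : ∀ i, |δ i| < K * H
  c4 : ∀ i, K * |δ i| < H
  J1 : 2 * K * H < M * Hb * J
  J2 : (J : ℝ) * (M * Hb) ≤ 3 * K * H
  Hb2 : (M : ℝ) * q' * Hb ≤ 3 * B * H

theorem mem_V3a {H : ℕ} {a : Fin 3 → ℤ} : a ∈ V3 H ↔ ∀ i, |a i| ≤ (H : ℤ) := by
  unfold V3
  simp only [Fintype.mem_piFinset, mem_Icc, abs_le]

/-- decomposition of `u` -/
theorem dec_u {M B H q' Hb : ℕ} (hM : 1 ≤ M) (hq : 1 ≤ q') (c1 : 2 * B * H < M * q' * Hb)
    {g x : ℤ} (c2 : |g| < B * H) (hx : |x| ≤ (B * H : ℕ)) (hd : (M : ℤ) ∣ x - g) :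
    ∃ (ρ : ℕ) (b : ℤ), ρ < q' ∧ -(Hb : ℤ) ≤ b ∧ b ≤ Hb ∧ x = g + M * (ρ + q' * b) := by
  obtain ⟨a, ha⟩ := hd
  have hq0 : (0 : ℤ) < q' := by exact_mod_cast hq
  have hM0 : (0 : ℤ) < M := by exact_mod_cast hM
  have h1 := Int.emod_add_mul_ediv a q'
  have h2 := Int.emod_nonneg a hq0.ne'
  have h3 := Int.emod_lt_of_pos a hq0
  have hMa : (M : ℤ) * a < 2 * (B * H) := by
    rw [← ha]
    push_cast at hx
    have := abs_le.1 hx; have := abs_lt.1 c2
    linarith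
  have hMa' : -(2 * (B * H) : ℤ) < (M : ℤ) * a := by
    rw [← ha]
    push_cast at hx
    have := abs_le.1 hx; have := abs_lt.1 c2
    linarith
  have c1' : (2 * B * H : ℤ) < M * q' * Hb := by exact_mod_cast c1
  refine ⟨(a % q').toNat, a / q', ?_, ?_, ?_, ?_⟩
  · zify; rw [Int.toNat_of_nonneg h2]; exact h3
  · by_contra hcon
    push Not at hcon
    have h4 : a < -(q' * Hb : ℤ) := by
      have : a / (q' : ℤ) + 1 ≤ -(Hb : ℤ) := hcon
      nlinarith
    nlinarith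
  · by_contra hcon
    push Not at hcon
    have h4 : (q' * Hb : ℤ) ≤ a := by nlinarith
    nlinarith
  · rw [Int.toNat_of_nonneg h2]
    have : (a % q' : ℤ) + q' * (a / q') = a := h1
    rw [this]; linarith

/-- decomposition of `w` -/
theorem dec_w {M K H Hb J : ℕ} (hM : 1 ≤ M) (hHb : 1 ≤ Hb) (J1 : 2 * K * H < M * Hb * J) (hK : 1 ≤ K)
    {g x : ℤ} (c3 : |g| < K * H) (c4 : K * |g| < H) (hx : |x| ≤ (K * H : ℕ)) (hx2 : (H : ℤ) ≤ K * x)
    (hd : (M : ℤ) ∣ x - g) :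
    ∃ (j : ℕ) (b : ℤ), j < J ∧ 0 ≤ b ∧ b ≤ Hb ∧ x = g + M * (Hb * j + b) ∧ M * (Hb * j) ≤ 2 * K * H := by
  obtain ⟨a, ha⟩ := hd
  have hM0 : (0 : ℤ) < M := by exact_mod_cast hM
  have hb0 : (0 : ℤ) < Hb := by exact_mod_cast hHb
  have hK0 : (0 : ℤ) < K := by exact_mod_cast hK
  have hxg : g < x := by
    have h1 : K * g < K * x := by
      have := le_abs_self g
      nlinarith
    exact lt_of_mul_lt_mul_left h1 hK0.le
  have ha0 : 0 ≤ a := by
    by_contra hcon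
    push Not at hcon
    nlinarith
  have h1 := Int.emod_add_mul_ediv a Hb
  have h2 := Int.emod_nonneg a hb0.ne'
  have h3 := Int.emod_lt_of_pos a hb0
  have h4 : 0 ≤ a / (Hb : ℤ) := Int.ediv_nonneg ha0 hb0.le
  have hMa : (M : ℤ) * a < 2 * (K * H) := by
    rw [← ha]
    push_cast at hx
    have := abs_le.1 hx; have := abs_lt.1 c3
    linarith
  have hMj : (M : ℤ) * (Hb * (a / Hb)) < 2 * (K * H) := by
    have : (Hb : ℤ) * (a / Hb) ≤ a := by linarith
    nlinarith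
  have J1' : (2 * K * H : ℤ) < M * Hb * J := by exact_mod_cast J1
  refine ⟨(a / Hb).toNat, a % Hb, ?_, h2, h3.le, ?_, ?_⟩
  · zify; rw [Int.toNat_of_nonneg h4]
    by_contra hcon
    push Not at hcon
    have : (M : ℤ) * Hb * J ≤ M * (Hb * (a / Hb)) := by
      have h5 : (M : ℤ) * Hb * J ≤ M * Hb * (a / Hb) := mul_le_mul_of_nonneg_left hcon (by positivity)
      linarith
    linarith
  · rw [Int.toNat_of_nonneg h4]
    have : (Hb : ℤ) * (a / Hb) + a % Hb = a := by linarith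
    rw [this]; linarith
  · zify; rw [Int.toNat_of_nonneg h4]
    linarith

open Classical in
/-- the set of exceptional pairs -/
noncomputable def Sx (M B K H κ : ℕ) (γ δ : Fin 3 → ℤ) : Finset ((Fin 3 → ℤ) × (Fin 3 → ℤ)) :=
  (V3 (B * H) ×ˢ V3 (K * H)).filter (fun t =>
      (∀ i, (M : ℤ) ∣ t.1 i - γ i ∧ (M : ℤ) ∣ t.2 i - δ i) ∧ (∀ i, (H : ℤ) ≤ K * t.2 i) ∧
      ¬ ∃ y : ℤ, |(y : ℝ)| ≤ Real.log H ^ κ ∧
        ∃ P : Fin 3 → ℕ, ∀ i, (P i).Prime ∧ t.1 i + y * t.2 i = P i)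

open Classical in
/-- the exceptional set of the data -/
noncomputable def Ex {m : ℕ} (D : Data m) (ε : Fin m → Fin m → ℤ) : Finset (Fin m → ℤ × ℤ) :=
  D.box.filter (fun b => (∀ i, ∀ t ∈ D.ts, 0 < D.val i t (b i)) ∧
    ¬ ∃ t ∈ D.ts, (∀ i, (D.val i t (b i)).natAbs.Prime) ∧
      ∀ i j, i < j → jacobiSym (D.val i t (b i)) (D.val j t (b j)).natAbs = ε i j)

theorem cover {W M B K H q' T Hb J : ℕ} {y₁ y₀ : ℤ} {γ δ : Fin 3 → ℤ}
    (N : Num W M B K H q' T Hb y₁ γ δ) (N2 : Num2 M B K H q' Hb J γ δ) :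
    Sx M B K H 12 γ δ ⊆
      ((Fintype.piFinset (fun _ : Fin 3 => range q')) ×ˢ
        (Fintype.piFinset (fun _ : Fin 3 => (range J).filter (fun j => M * (Hb * j) ≤ 2 * K * H)))).biUnion
      (fun x => (Ex (dt3 M q' y₁ T Hb γ δ x.1 x.2) (fun _ _ => 1)).image
        (fun b => (uu M q' γ x.1 b, ww M Hb δ x.2 b))) := by
  classical
  intro x hx
  unfold Sx at hx
  rw [mem_filter, mem_product, mem_V3a, mem_V3a] at hx
  obtain ⟨⟨hu, hw⟩, hd, hpos, hno⟩ := hx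
  have h1 := fun i => dec_u N.hM N.hq'.one_le N2.c1 (N2.c2 i) (hu i) (hd i).1
  have h2 := fun i => dec_w N.hM N.hHb N2.J1 N.hK (N2.c3 i) (N2.c4 i) (hw i) (hpos i) (hd i).2
  choose ρ b0 r1 r2 r3 r4 using h1
  choose j b1 s1 s2 s3 s4 s5 using h2
  rw [mem_biUnion]
  refine ⟨(ρ, j), ?_, ?_⟩
  · rw [mem_product, Fintype.mem_piFinset, Fintype.mem_piFinset]
    exact ⟨fun i => mem_range.2 (r1 i), fun i => mem_filter.2 ⟨mem_range.2 (s1 i), s5 i⟩⟩
  rw [mem_image]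
  refine ⟨fun i => (b0 i, b1 i), ?_, ?_⟩
  · have hval : ∀ i t, (dt3 M q' y₁ T Hb γ δ ρ j).val i t ((fun i => (b0 i, b1 i)) i) =
        x.1 i + (y₁ + M * t) * x.2 i := by
      intro i t
      rw [val_eq M q' y₁ T Hb γ δ ρ j (fun i => (b0 i, b1 i)) i t]
      unfold uu ww
      simp only
      rw [← r4 i, ← s4 i]
    have hvpos : ∀ (i : Fin 3) (t : ℕ), 0 < x.1 i + (y₁ + M * t) * x.2 i := by
      intro i t
      have hK0 : (0 : ℤ) < K := by exact_mod_cast N.hK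
      have hM0 : (0 : ℤ) < M := by exact_mod_cast N.hM
      have hB0 : (0 : ℤ) < B := by exact_mod_cast N.hB
      have e1 := (abs_le.1 (hu i)).1
      push_cast at e1
      have e2 := hpos i
      have e3 := N.y1
      have e4 : 2 * (B : ℤ) * K ≤ y₁ + M * t := by
        have : (0 : ℤ) ≤ M * t := by positivity
        linarith
      have hH0 : (0 : ℤ) < H := by
        have h5 := N2.c4 i
        have h6 : (0 : ℤ) ≤ K * |δ i| := mul_nonneg hK0.le (abs_nonneg _)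
        linarith
      have hx2 : 0 < x.2 i := by
        by_contra hcon
        push Not at hcon
        nlinarith
      have e5 : 2 * (B : ℤ) * K * x.2 i ≤ (y₁ + M * t) * x.2 i := mul_le_mul_of_nonneg_right e4 hx2.le
      have e6 : 2 * (B : ℤ) * H ≤ 2 * (B : ℤ) * (K * x.2 i) := mul_le_mul_of_nonneg_left e2 (by positivity)
      have e7 : (0 : ℤ) < B * H := mul_pos hB0 hH0
      nlinarith
    unfold Ex
    rw [mem_filter]
    refine ⟨?_, ?_, ?_⟩
    · unfold Data.box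
      rw [Fintype.mem_piFinset]
      intro i
      unfold bx
      rw [mem_product]
      show b0 i ∈ Icc (-(Hb : ℤ)) (Hb : ℤ) ∧ b1 i ∈ Icc (0 : ℤ) (Hb : ℤ)
      exact ⟨mem_Icc.2 ⟨r2 i, r3 i⟩, mem_Icc.2 ⟨s2 i, s3 i⟩⟩
    · intro i t ht
      rw [hval i t]
      exact hvpos i t
    · rintro ⟨t, ht, hp, -⟩
      apply hno
      refine ⟨y₁ + M * t, ?_, fun i => (x.1 i + (y₁ + M * t) * x.2 i).natAbs, fun i => ⟨?_, ?_⟩⟩
      · have htT : t < T := by
          unfold Data.ts at ht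
          exact mem_range.1 (mem_filter.1 ht).1
        set l : ℝ := Real.log Hb with hl
        set L : ℝ := Real.log H with hL
        have l0 := N.l0
        rw [← hl] at l0
        have hlL : l ≤ L := N.lH'
        have Lpos : (0 : ℝ) < L := by linarith
        have L1 : (1 : ℝ) ≤ L := by linarith
        have ly := N.ly
        have lM := N.lM
        rw [← hl] at ly lM
        push_cast
        have h1 : |(y₁ : ℝ) + M * t| ≤ |(y₁ : ℝ)| + |(M : ℝ) * t| := abs_add_le _ _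
        have h2 : |(M : ℝ) * t| = M * t := abs_of_nonneg (by positivity)
        have h3 : (t : ℝ) ≤ T := by exact_mod_cast htT.le
        have h4 : (M : ℝ) * t ≤ L * (2 * L ^ 9) :=
          mul_le_mul (lM.trans hlL) (h3.trans N.T2) (Nat.cast_nonneg _) Lpos.le
        have h5 : L ≤ L ^ 10 := by simpa using pow_le_pow_right₀ L1 (by norm_num : 1 ≤ 10)
        have h6 : L ^ 12 = L ^ 2 * L ^ 10 := by ring
        have h7 : 0 ≤ L ^ 10 := by positivity
        have h8 : (3 : ℝ) ≤ L ^ 2 := by nlinarith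
        nlinarith
      · have := hp i
        rw [hval i t] at this
        exact this
      · exact (Int.natAbs_of_nonneg (hvpos i t).le).symm
  · ext i
    · unfold uu; simp only; exact (r4 i).symm
    · unfold ww; simp only; exact (s4 i).symm

theorem count {W M B K H q' T Hb J : ℕ} {y₁ y₀ : ℤ} {γ δ : Fin 3 → ℤ} {C₁ : ℝ} (hC : 0 ≤ C₁)
    (N : Num W M B K H q' T Hb y₁ γ δ) (N2 : Num2 M B K H q' Hb J γ δ)
    (h2 : 2 ∣ M) (hMW : ∀ p : ℕ, p.Prime → p ≤ W → p ∣ M)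
    (hy : (M : ℤ) ∣ y₁ - y₀) (hco : ∀ i, IsCoprime (γ i + y₀ * δ i) (M : ℤ))
    (hfix : ∀ D : Data 3, D.Ok 20 W Hb → ((Ex D (fun _ _ => 1)).card : ℝ) ≤ C₁ / W * D.vol) :
    ((Sx M B K H 12 γ δ).card : ℝ) ≤ C₁ * 54 ^ 3 / W * ((B : ℝ) * H / M) ^ 3 * ((K : ℝ) * H / M) ^ 3 := by
  classical
  have hMr : (0 : ℝ) < M := by exact_mod_cast N.hM
  have hWr : (0 : ℝ) < W := by exact_mod_cast N.hW
  have hHbr : (1 : ℝ) ≤ Hb := by exact_mod_cast N.hHb
  set I := ((Fintype.piFinset (fun _ : Fin 3 => range q')) ×ˢ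
        (Fintype.piFinset (fun _ : Fin 3 => (range J).filter (fun j => M * (Hb * j) ≤ 2 * K * H)))) with hI
  have hvol : ∀ ρ j, (dt3 M q' y₁ T Hb γ δ ρ j).vol ≤ (6 * (Hb : ℝ) ^ 2) ^ 3 := by
    intro ρ j
    unfold Data.vol
    have h1 : ∀ i : Fin 3, ar ((dt3 M q' y₁ T Hb γ δ ρ j).u i) ((dt3 M q' y₁ T Hb γ δ ρ j).v i) ≤
        6 * (Hb : ℝ) ^ 2 := by
      intro i
      show ar (-(Hb : ℤ), 0) ((Hb : ℤ), (Hb : ℤ)) ≤ _
      unfold ar
      push_cast
      nlinarith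
    have h0 : ∀ i : Fin 3, 0 ≤ ar ((dt3 M q' y₁ T Hb γ δ ρ j).u i) ((dt3 M q' y₁ T Hb γ δ ρ j).v i) := by
      intro i
      show 0 ≤ ar (-(Hb : ℤ), 0) ((Hb : ℤ), (Hb : ℤ))
      unfold ar
      push_cast
      have : (0 : ℝ) ≤ Hb := Nat.cast_nonneg _
      apply mul_nonneg <;> linarith
    calc _ ≤ ∏ i : Fin 3, (6 * (Hb : ℝ) ^ 2) := prod_le_prod (fun i _ => h0 i) (fun i _ => h1 i)
      _ = _ := by rw [prod_const, card_univ, Fintype.card_fin]
  have hIc : (I.card : ℝ) ≤ (q' : ℝ) ^ 3 * (J : ℝ) ^ 3 := by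
    have h1 : I.card ≤ q' ^ 3 * J ^ 3 := by
      rw [hI, card_product, Fintype.card_piFinset, Fintype.card_piFinset, prod_const, prod_const,
        card_univ, Fintype.card_fin, card_range]
      apply Nat.mul_le_mul_left
      apply Nat.pow_le_pow_left
      calc _ ≤ (range J).card := card_filter_le _ _
        _ = J := card_range J
    exact_mod_cast h1
  have key : ((Sx M B K H 12 γ δ).card : ℝ) ≤ (q' : ℝ) ^ 3 * (J : ℝ) ^ 3 * (C₁ / W * (6 * (Hb : ℝ) ^ 2) ^ 3) := by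
    calc ((Sx M B K H 12 γ δ).card : ℝ) ≤ ∑ x ∈ I, ((Ex (dt3 M q' y₁ T Hb γ δ x.1 x.2) (fun _ _ => 1)).card : ℝ) := by
          have h1 := (card_le_card (cover (y₀ := y₀) N N2)).trans card_biUnion_le
          have h2 : (∑ x ∈ I, ((Ex (dt3 M q' y₁ T Hb γ δ x.1 x.2) (fun _ _ => 1)).image
            (fun b => (uu M q' γ x.1 b, ww M Hb δ x.2 b))).card) ≤
            ∑ x ∈ I, (Ex (dt3 M q' y₁ T Hb γ δ x.1 x.2) (fun _ _ => 1)).card :=
            sum_le_sum fun x _ => card_image_le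
          have h3 := h1.trans h2
          exact_mod_cast h3
      _ ≤ ∑ x ∈ I, (C₁ / W * (6 * (Hb : ℝ) ^ 2) ^ 3) := by
          refine sum_le_sum fun x hx => ?_
          rw [hI, mem_product, Fintype.mem_piFinset, Fintype.mem_piFinset] at hx
          refine (hfix _ (ok_of_num N h2 hMW hy hco x.1 x.2 (fun i => mem_range.1 (hx.1 i))
            (fun i => (mem_filter.1 (hx.2 i)).2))).trans ?_
          exact mul_le_mul_of_nonneg_left (hvol _ _) (by positivity)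
      _ = I.card * (C₁ / W * (6 * (Hb : ℝ) ^ 2) ^ 3) := by rw [sum_const, nsmul_eq_mul]
      _ ≤ _ := mul_le_mul_of_nonneg_right hIc (by positivity)
  refine key.trans ?_
  have e1 : (q' : ℝ) ^ 3 * (J : ℝ) ^ 3 * (C₁ / W * (6 * (Hb : ℝ) ^ 2) ^ 3) =
      C₁ / W * (q' * J * (6 * (Hb : ℝ) ^ 2)) ^ 3 := by ring
  have e2 : (q' : ℝ) * J * (6 * (Hb : ℝ) ^ 2) ≤ 54 * (((B : ℝ) * H / M) * ((K : ℝ) * H / M)) := by
    have h1 := N2.J2
    have h2 := N2.Hb2
    have h3 : ((J : ℝ) * (M * Hb)) * ((M : ℝ) * q' * Hb) ≤ (3 * K * H) * (3 * B * H) :=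
      mul_le_mul h1 h2 (by positivity) (by positivity)
    have h4 : 54 * (((B : ℝ) * H / M) * ((K : ℝ) * H / M)) = 6 * ((3 * K * H) * (3 * B * H)) / (M * M) := by
      field_simp; ring
    rw [h4, le_div_iff₀ (by positivity)]
    nlinarith
  rw [e1]
  calc C₁ / W * (q' * J * (6 * (Hb : ℝ) ^ 2)) ^ 3
      ≤ C₁ / W * (54 * (((B : ℝ) * H / M) * ((K : ℝ) * H / M))) ^ 3 := by
        apply mul_le_mul_of_nonneg_left _ (by positivity)
        exact pow_le_pow_left₀ (by positivity) e2 3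
    _ = _ := by ring

end Pool.Agent.L7h47.BE
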