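import Pool.Agent.L7h47.BE.Exc2

/-!
Project BE (helper8), part EXC: choice of the parameters.
-/

set_option autoImplicit false
set_option linter.all false

namespace Pool.Agent.L7h47.BE

open Finset Filter Topology
open Pool.Agent.N718.LB (V3 cr dt)
open Pool.Agent.N718.DC
open Pool.Agent.L7h8.BE (S_EXC)

theorem ev_basic (Z : ℕ) : ∀ᶠ H : ℕ in atTop, (8 * (Z : ℝ) ≤ Real.log H) ∧
    Real.log H ^ 12 ≤ (H : ℝ) := by
  have h1 : Tendsto (fun H : ℕ => Real.log (H : ℝ)) atTop atTop :=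
    Real.tendsto_log_atTop.comp tendsto_natCast_atTop_atTop
  have h2 : ∀ᶠ x : ℝ in atTop, ‖Real.log x ^ 12‖ ≤ 1 * ‖x‖ := by
    have := (isLittleO_log_rpow_atTop (r := (1 / 12 : ℝ)) (by norm_num))
    have h3 := (Real.isLittleO_pow_log_id_atTop (n := 12))
    exact h3.def (by norm_num)
  have h3 := tendsto_natCast_atTop_atTop (R := ℝ) |>.eventually h2
  filter_upwards [h1.eventually_ge_atTop (8 * (Z : ℝ)), h3] with H a1 a2
  refine ⟨a1, ?_⟩
  rw [one_mul, Real.norm_of_nonneg (Nat.cast_nonneg _), Real.norm_eq_abs] at a2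
  exact (le_abs_self _).trans a2

theorem params (W M B K : ℕ) (hW : 1 ≤ W) (hM : 1 ≤ M) (hB : 1 ≤ B) (hK : 1 ≤ K) (y₁ : ℤ)
    (hy₁ : 2 * (B : ℤ) * K ≤ y₁) (γ δ : Fin 3 → ℤ) (H₂ : ℕ) :
    ∃ H₀ : ℕ, ∀ H : ℕ, H₀ ≤ H → ∃ q' T Hb J : ℕ, H₂ ≤ Hb ∧
      Num W M B K H q' T Hb y₁ γ δ ∧ Num2 M B K H q' Hb J γ δ := by
  set Z : ℕ := 4096 + W + M + B + K + y₁.natAbs + ∑ i, (γ i).natAbs + ∑ i, (δ i).natAbs + H₂ with hZ
  obtain ⟨H₀, hH₀⟩ := eventually_atTop.1 (ev_basic Z)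
  refine ⟨H₀, fun H hH => ?_⟩
  obtain ⟨hL, hLH⟩ := hH₀ H hH
  set L : ℝ := Real.log H with hLdef
  have zγ : ∀ i, (γ i).natAbs ≤ Z := by
    intro i
    have := single_le_sum (f := fun i => (γ i).natAbs) (fun _ _ => Nat.zero_le _) (mem_univ i)
    omega
  have zδ : ∀ i, (δ i).natAbs ≤ Z := by
    intro i
    have := single_le_sum (f := fun i => (δ i).natAbs) (fun _ _ => Nat.zero_le _) (mem_univ i)
    omega
  have z0 : 4096 ≤ Z := by omega
  have zW : W ≤ Z := by omega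
  have zM : M ≤ Z := by omega
  have zB : B ≤ Z := by omega
  have zK : K ≤ Z := by omega
  have zy : y₁.natAbs ≤ Z := by omega
  have zH : H₂ ≤ Z := by omega
  have Zr : (4096 : ℝ) ≤ Z := by exact_mod_cast z0
  have Lbig : (32768 : ℝ) ≤ L := by linarith
  have L1 : (1 : ℝ) ≤ L := by linarith
  have Lpos : (0 : ℝ) < L := by linarith
  have hpow : ∀ m k : ℕ, m ≤ k → L ^ m ≤ L ^ k := fun m k h => pow_le_pow_right₀ L1 h
  -- q'
  obtain ⟨q', hq', hq1, hq2⟩ := Nat.exists_prime_lt_and_le_two_mul ⌈L ^ 2⌉₊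
    (by rw [Ne, Nat.ceil_eq_zero, not_le]; positivity)
  have q1 : L ^ 2 ≤ (q' : ℝ) := (Nat.le_ceil _).trans (by exact_mod_cast hq1.le)
  have q2 : (q' : ℝ) ≤ 4 * L ^ 2 := by
    have h1 : (q' : ℝ) ≤ 2 * (⌈L ^ 2⌉₊ : ℝ) := by exact_mod_cast hq2
    have h2 := Nat.ceil_lt_add_one (by positivity : (0:ℝ) ≤ L ^ 2)
    nlinarith
  have hqpos : 0 < q' := hq'.pos
  have hqr : (0 : ℝ) < q' := by exact_mod_cast hqpos
  have hMr : (1 : ℝ) ≤ M := by exact_mod_cast hM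
  have hBr : (1 : ℝ) ≤ B := by exact_mod_cast hB
  have hKr : (1 : ℝ) ≤ K := by exact_mod_cast hK
  have bM : 8 * (M : ℝ) ≤ L := by
    have : (M : ℝ) ≤ Z := by exact_mod_cast zM
    linarith
  have bB : 8 * (B : ℝ) ≤ L := by
    have : (B : ℝ) ≤ Z := by exact_mod_cast zB
    linarith
  -- H is large
  have hHr : L ^ 12 ≤ (H : ℝ) := hLH
  have hHpos : (0 : ℝ) < H := lt_of_lt_of_le (by positivity) hHr
  have hMq : (M : ℝ) * q' ≤ L ^ 3 := by
    have h1 : (M : ℝ) * q' ≤ (L / 8) * (4 * L ^ 2) := mul_le_mul (by linarith) q2 hqr.le (by positivity)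
    have h2 : (L / 8) * (4 * L ^ 2) = L ^ 3 / 2 := by ring
    have h3 : 0 ≤ L ^ 3 := by positivity
    linarith
  have hL3H : L ^ 3 ≤ (H : ℝ) := (hpow 3 12 (by norm_num)).trans hHr
  have hMqH : (M : ℝ) * q' ≤ B * H := by
    have : (H : ℝ) ≤ B * H := le_mul_of_one_le_left hHpos.le hBr
    linarith
  -- Hb
  set Hb : ℕ := 2 * B * H / (M * q') + 1 with hHb
  have hMq0 : 0 < M * q' := Nat.mul_pos hM hqpos
  have c1 : 2 * B * H < M * q' * Hb := by
    rw [hHb]; exact Nat.lt_mul_div_succ _ hMq0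
  have hHb1 : 1 ≤ Hb := by rw [hHb]; exact Nat.succ_le_succ (Nat.zero_le _)
  have Hb2 : (M : ℝ) * q' * Hb ≤ 3 * B * H := by
    have h1 : M * q' * Hb ≤ 2 * B * H + M * q' := by
      rw [hHb, mul_add, mul_one]
      exact Nat.add_le_add_right (Nat.mul_div_le _ _) _
    have h2 : (M : ℝ) * q' * Hb ≤ 2 * B * H + M * q' := by exact_mod_cast h1
    linarith
  have c1r : 2 * (B : ℝ) * H < M * q' * Hb := by exact_mod_cast c1
  have hHbr : (1 : ℝ) ≤ Hb := by exact_mod_cast hHb1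
  have hMHb : (M : ℝ) * Hb ≤ H := by
    have h1 : 3 * (B : ℝ) ≤ q' := by nlinarith
    have h2 : (q' : ℝ) * (M * Hb) ≤ q' * H := by
      calc (q' : ℝ) * (M * Hb) = M * q' * Hb := by ring
        _ ≤ 3 * B * H := Hb2
        _ ≤ q' * H := mul_le_mul_of_nonneg_right h1 hHpos.le
    exact le_of_mul_le_mul_left h2 hqr
  have hHbH : (Hb : ℝ) ≤ H := by nlinarith
  have hHbL : (H : ℝ) ≤ (Hb : ℝ) ^ 2 := by
    -- Hb * L^3 ≥ H
    have h1 : (H : ℝ) ≤ L ^ 3 * Hb := by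
      have : (M : ℝ) * q' * Hb ≤ L ^ 3 * Hb := mul_le_mul_of_nonneg_right hMq (by linarith)
      nlinarith
    have h2 : L ^ 6 ≤ (H : ℝ) := (hpow 6 12 (by norm_num)).trans hHr
    have h3 : (H : ℝ) ^ 2 ≤ (L ^ 3 * Hb) ^ 2 := pow_le_pow_left₀ hHpos.le h1 2
    have h4 : (L ^ 3 * (Hb : ℝ)) ^ 2 = L ^ 6 * (Hb : ℝ) ^ 2 := by ring
    rw [h4] at h3
    have h5 : L ^ 6 * (Hb : ℝ) ^ 2 ≤ H * (Hb : ℝ) ^ 2 := mul_le_mul_of_nonneg_right h2 (by positivity)
    have h6 : (H : ℝ) * H ≤ H * (Hb : ℝ) ^ 2 := by nlinarith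
    exact le_of_mul_le_mul_left h6 hHpos
  have lH : L ≤ 2 * Real.log Hb := by
    have h1 := Real.log_le_log hHpos hHbL
    rw [Real.log_pow] at h1
    push_cast at h1
    exact h1
  have lH' : Real.log Hb ≤ L := Real.log_le_log (by linarith) hHbH
  have lZ : (Z : ℝ) ≤ Real.log Hb := by
    have : (0 : ℝ) ≤ Z := Nat.cast_nonneg _
    linarith
  have lZ' : ∀ n : ℕ, n ≤ Z → (n : ℝ) ≤ Real.log Hb := by
    intro n hn
    have : (n : ℝ) ≤ Z := by exact_mod_cast hn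
    linarith
  have labs : ∀ z : ℤ, z.natAbs ≤ Z → |(z : ℝ)| ≤ Real.log Hb := by
    intro z hz
    have h1 := lZ' _ hz
    rw [Nat.cast_natAbs] at h1
    push_cast at h1
    exact h1
  have ZH : (Z : ℝ) * Z < H := by
    have h1 : (Z : ℝ) * Z ≤ L ^ 2 := by nlinarith
    have h2 : L ^ 2 < L ^ 12 := pow_lt_pow_right₀ (by linarith) (by norm_num)
    linarith
  have ZH' : Z * Z < H := by exact_mod_cast ZH
  have ZltH : Z < H := lt_of_le_of_lt (Nat.le_mul_self Z) ZH'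
  -- T, J
  set T : ℕ := ⌈L ^ 9⌉₊ with hT
  set J : ℕ := 2 * K * H / (M * Hb) + 1 with hJ
  refine ⟨q', T, Hb, J, ?_, ?_, ?_⟩
  · have h1 := lZ' _ zH
    have h2 : Real.log Hb ≤ Hb := Real.log_le_self (by linarith)
    exact_mod_cast h1.trans h2
  · exact
      { hW := hW
        hM := hM
        hB := hB
        hK := hK
        l0 := by linarith
        lW := lZ' _ zW
        lM := lZ' _ zM
        lB := lZ' _ zB
        lK := lZ' _ zK
        ly := labs _ zy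
        lγ := fun i => labs _ (zγ i)
        lδ := fun i => labs _ (zδ i)
        lH := lH
        lH' := lH'
        hHb := hHb1
        hq' := hq'
        q1 := q1
        q2 := q2
        T1 := Nat.le_ceil _
        T2 := by
          have h1 := Nat.ceil_lt_add_one (by positivity : (0:ℝ) ≤ L ^ 9)
          have h2 : (1 : ℝ) ≤ L ^ 9 := one_le_pow₀ L1
          linarith
        Hb1 := by nlinarith
        y1 := hy₁ }
  · have hγ : ∀ z : ℤ, z.natAbs ≤ Z → |z| ≤ (Z : ℤ) := by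
      intro z hz
      rw [Int.abs_eq_natAbs]
      exact_mod_cast hz
    have ZHi : (Z : ℤ) < H := by exact_mod_cast ZltH
    have hHi : (0 : ℤ) < H := by linarith [(Int.natCast_nonneg Z)]
    have hBi : (1 : ℤ) ≤ B := by exact_mod_cast hB
    have hKi : (1 : ℤ) ≤ K := by exact_mod_cast hK
    exact
      { c1 := c1
        c2 := fun i => by
          have h1 := hγ _ (zγ i)
          nlinarith
        c3 := fun i => by
          have h1 := hγ _ (zδ i)
          nlinarith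
        c4 := fun i => by
          have h1 := hγ _ (zδ i)
          have h2 : (K : ℤ) ≤ Z := by exact_mod_cast zK
          have h3 : (Z : ℤ) * Z < H := by exact_mod_cast ZH'
          have h4 : (K : ℤ) * |δ i| ≤ Z * Z := mul_le_mul h2 h1 (abs_nonneg _) (by positivity)
          linarith
        J1 := by
          rw [hJ]; exact Nat.lt_mul_div_succ _ (Nat.mul_pos hM hHb1)
        J2 := by
          have h1 : J * (M * Hb) ≤ 2 * K * H + M * Hb := by
            rw [hJ, add_mul, one_mul]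
            exact Nat.add_le_add_right (Nat.div_mul_le_self _ _) _
          have h2 : (J : ℝ) * (M * Hb) ≤ 2 * K * H + M * Hb := by exact_mod_cast h1
          have h3 : (H : ℝ) ≤ K * H := le_mul_of_one_le_left hHpos.le hKr
          linarith
        Hb2 := Hb2 }

theorem exc_ (h1 : S_FIX) : S_EXC := by
  obtain ⟨C₁, hC₁, h1⟩ := h1 3
  refine ⟨C₁ * 54 ^ 3, by positivity, 12, ?_⟩
  intro W M hW hM h2 hMW B K hB hK y₀ γ δ hco
  obtain ⟨H₂, hfix⟩ := h1 20 W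
  obtain ⟨y₁, hy₁, hyd⟩ : ∃ y₁ : ℤ, 2 * (B : ℤ) * K ≤ y₁ ∧ (M : ℤ) ∣ y₁ - y₀ := by
    refine ⟨y₀ + M * (|y₀| + 2 * B * K), ?_, ⟨|y₀| + 2 * B * K, by ring⟩⟩
    have h3 : (1 : ℤ) ≤ M := by exact_mod_cast hM
    have h4 : 0 ≤ |y₀| + 2 * B * K := by positivity
    have h5 := neg_abs_le y₀
    nlinarith
  obtain ⟨H₀, hH₀⟩ := params W M B K hW hM hB hK y₁ hy₁ γ δ H₂
  refine ⟨H₀, fun H hH => ?_⟩
  obtain ⟨q', T, Hb, J, hb, N, N2⟩ := hH₀ H hH
  have key := count hC₁ N N2 h2 hMW hyd hco (fun D hD => by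
    have h5 := hfix Hb hb D hD (fun _ _ => 1) (fun _ _ => Or.inl rfl)
    rw [Finset.filter_congr_decidable] at h5
    unfold Ex
    rw [Finset.filter_congr_decidable]
    exact h5)
  unfold Sx at key
  exact key

end Pool.Agent.L7h47.BE
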