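import Pool.Agent.L7h8.BE.Stm

/-!
Project BE (helper8), part RED: a small solution of the inhomogeneous equation.
-/

set_option autoImplicit false
set_option linter.all false

namespace Pool.Agent.L7h47.BE

open Finset
open Pool.Agent.N718.LB (V3 cr dt)
open Pool.Agent.L7h8.BE

/-- Bezout for three integers without a common prime factor -/
theorem bez3 (a : Fin 3 → ℤ) (h : ∀ p : ℕ, p.Prime → ¬ ∀ i, (p : ℤ) ∣ a i) :
    ∃ t : Fin 3 → ℤ, dt a t = 1 := by
  have h1 : Int.gcd (a 0) (Int.gcd (a 1) (a 2) : ℤ) = 1 := by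
    by_contra hg
    obtain ⟨p, hp, hpg⟩ := Nat.exists_prime_and_dvd hg
    apply h p hp
    have e0 : (p : ℤ) ∣ a 0 := (Int.natCast_dvd_natCast.2 hpg).trans (Int.gcd_dvd_left _ _)
    have e1 : (p : ℤ) ∣ (Int.gcd (a 1) (a 2) : ℤ) :=
      (Int.natCast_dvd_natCast.2 hpg).trans (Int.gcd_dvd_right _ _)
    intro i
    fin_cases i
    · exact e0
    · exact e1.trans (Int.gcd_dvd_left _ _)
    · exact e1.trans (Int.gcd_dvd_right _ _)
  have h2 := Int.gcd_eq_gcd_ab (a 0) (Int.gcd (a 1) (a 2) : ℤ)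
  have h3 := Int.gcd_eq_gcd_ab (a 1) (a 2)
  rw [h1] at h2
  generalize (a 0).gcdA (Int.gcd (a 1) (a 2) : ℤ) = x at h2
  generalize (a 0).gcdB (Int.gcd (a 1) (a 2) : ℤ) = y at h2
  rw [h3] at h2
  generalize (a 1).gcdA (a 2) = z at h2
  generalize (a 1).gcdB (a 2) = s at h2
  refine ⟨![x, z * y, s * y], ?_⟩
  simp [dt]
  push_cast at h2
  linear_combination -h2

theorem red : S_RED := by
  intro K hK
  refine ⟨3 * K, ?_⟩
  intro H hH v w hv hw ha hprim d hd
  obtain ⟨t, ht⟩ := bez3 _ hprim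
  set a : Fin 3 → ℤ := cr v w with hadef
  have ea0 : a 0 = v 1 * w 2 - v 2 * w 1 := by rw [hadef]; simp [cr]
  have ea1 : a 1 = v 2 * w 0 - v 0 * w 2 := by rw [hadef]; simp [cr]
  have ea2 : a 2 = v 0 * w 1 - v 1 * w 0 := by rw [hadef]; simp [cr]
  set N : ℤ := a 0 ^ 2 + a 1 ^ 2 + a 2 ^ 2 with hN
  have hHpos : (0 : ℤ) < H := by exact_mod_cast hH
  have hKpos : (0 : ℤ) < K := by exact_mod_cast hK
  have hai : ∀ i, 0 < |a i| := by
    intro i
    have := ha i
    by_contra hcon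
    have h0 : |a i| = 0 := le_antisymm (not_lt.1 hcon) (abs_nonneg _)
    rw [h0] at this
    nlinarith [sq_pos_of_pos hHpos]
  have hNi : ∀ i, a i ^ 2 ≤ N := by
    intro i
    fin_cases i
    · show a 0 ^ 2 ≤ N
      rw [hN]; nlinarith [sq_nonneg (a 1), sq_nonneg (a 2)]
    · show a 1 ^ 2 ≤ N
      rw [hN]; nlinarith [sq_nonneg (a 0), sq_nonneg (a 2)]
    · show a 2 ^ 2 ≤ N
      rw [hN]; nlinarith [sq_nonneg (a 0), sq_nonneg (a 1)]
  have hNpos : 0 < N := by
    have h1 := hNi 0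
    have h2 := hai 0
    have h3 : 0 < a 0 ^ 2 := by
      rw [← sq_abs]; positivity
    linarith
  -- the coefficients
  set u : Fin 3 → ℤ := fun i => d * t i with hu
  set A : ℤ := dt (cr u w) a with hA
  set B : ℤ := dt (cr v u) a with hB
  have hexp : ∀ i, N * u i = A * v i + B * w i + d * a i := by
    have hdu : dt a u = d := by
      have : dt a u = d * dt a t := by simp [dt, hu]; ring
      rw [this, ht, mul_one]
    have hdu' : d = a 0 * u 0 + a 1 * u 1 + a 2 * u 2 := by rw [← hdu]; simp [dt]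
    have eA : A = (u 1 * w 2 - u 2 * w 1) * a 0 + (u 2 * w 0 - u 0 * w 2) * a 1 +
        (u 0 * w 1 - u 1 * w 0) * a 2 := by rw [hA]; simp [dt, cr]
    have eB : B = (v 1 * u 2 - v 2 * u 1) * a 0 + (v 2 * u 0 - v 0 * u 2) * a 1 +
        (v 0 * u 1 - v 1 * u 0) * a 2 := by rw [hB]; simp [dt, cr]
    intro i
    rw [eA, eB, hN, hdu', ]
    fin_cases i
    · show (a 0 ^ 2 + a 1 ^ 2 + a 2 ^ 2) * u 0 = _ * v 0 + _ * w 0 + _ * a 0
      rw [ea0, ea1, ea2]; ring
    · show (a 0 ^ 2 + a 1 ^ 2 + a 2 ^ 2) * u 1 = _ * v 1 + _ * w 1 + _ * a 1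
      rw [ea0, ea1, ea2]; ring
    · show (a 0 ^ 2 + a 1 ^ 2 + a 2 ^ 2) * u 2 = _ * v 2 + _ * w 2 + _ * a 2
      rw [ea0, ea1, ea2]; ring
  have hdu : dt a u = d := by
    have : dt a u = d * dt a t := by simp [dt, hu]; ring
    rw [this, ht, mul_one]
  have hav : dt a v = 0 := by
    have : dt a v = a 0 * v 0 + a 1 * v 1 + a 2 * v 2 := rfl
    rw [this, ea0, ea1, ea2]; ring
  have haw : dt a w = 0 := by
    have : dt a w = a 0 * w 0 + a 1 * w 1 + a 2 * w 2 := rfl
    rw [this, ea0, ea1, ea2]; ring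
  refine ⟨fun i => u i - (A / N) * v i - (B / N) * w i, ?_, ?_⟩
  · have : dt a (fun i => u i - (A / N) * v i - (B / N) * w i) =
        dt a u - (A / N) * dt a v - (B / N) * dt a w := by
      simp only [dt]; ring
    rw [this, hdu, hav, haw]; ring
  · intro i
    have h1 : N * (u i - (A / N) * v i - (B / N) * w i) = (A % N) * v i + (B % N) * w i + d * a i := by
      have e1 := Int.emod_add_mul_ediv A N
      have e2 := Int.emod_add_mul_ediv B N
      have e3 := hexp i
      linear_combination e3 - v i * e1 - w i * e2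
    have hA0 := Int.emod_nonneg A hNpos.ne'
    have hA1 := Int.emod_lt_of_pos A hNpos
    have hB0 := Int.emod_nonneg B hNpos.ne'
    have hB1 := Int.emod_lt_of_pos B hNpos
    have b1 : |(A % N) * v i| ≤ N * (K * H) := by
      rw [abs_mul, abs_of_nonneg hA0]
      exact mul_le_mul hA1.le (hv i) (abs_nonneg _) hNpos.le
    have b2 : |(B % N) * w i| ≤ N * (K * H) := by
      rw [abs_mul, abs_of_nonneg hB0]
      exact mul_le_mul hB1.le (hw i) (abs_nonneg _) hNpos.le
    have b3 : |d * a i| ≤ N * (K * H) := by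
      rw [abs_mul]
      have c1 : |d| * |a i| ≤ (H : ℤ) ^ 3 * |a i| := mul_le_mul_of_nonneg_right hd (abs_nonneg _)
      have c2 : (H : ℤ) ^ 3 * |a i| ≤ (K * H) * (a i) ^ 2 := by
        rw [← sq_abs (a i)]
        have := mul_le_mul_of_nonneg_left (ha i) (mul_nonneg hHpos.le (abs_nonneg (a i)))
        nlinarith [this]
      have c3 : (K * H : ℤ) * (a i) ^ 2 ≤ (K * H) * N := mul_le_mul_of_nonneg_left (hNi i) (by positivity)
      linarith
    have h2 : N * |u i - (A / N) * v i - (B / N) * w i| ≤ N * (3 * K * H) := by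
      rw [← abs_of_pos hNpos, ← abs_mul, abs_of_pos hNpos, h1]
      have := abs_add_le ((A % N) * v i + (B % N) * w i) (d * a i)
      have := abs_add_le ((A % N) * v i) ((B % N) * w i)
      nlinarith
    have h3 := le_of_mul_le_mul_left h2 hNpos
    push_cast
    exact h3

end Pool.Agent.L7h47.BE
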