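import Pool.Agent.L7h47.BE.GeoCore
import Pool.Agent.L7h47.BE.Red
import Pool.Agent.N654.LB.LAT
import Pool.Agent.N232.LB.SHORT

/-!
Project BE (helper8), part GEO.
-/

set_option autoImplicit false
set_option linter.all false

namespace Pool.Agent.L7h47.BE

open Finset
open Pool.Agent.N718.LB (V3 cr dt)
open Pool.Agent.L7h8.BE

/-- a positive vector orthogonal to `a` -/
theorem sgnvec (a : Fin 3 → ℤ) (L m M : ℤ) (hL : 0 ≤ L) (h1 : ∀ i, m ≤ L * |a i|) (h2 : ∀ i, |a i| ≤ M)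
    (h0 : ∀ i, a i ≠ 0) (hp : ¬ ∀ i, 0 < a i) (hn : ¬ ∀ i, a i < 0) :
    ∃ z : Fin 3 → ℤ, a 0 * z 0 + a 1 * z 1 + a 2 * z 2 = 0 ∧ (∀ i, m ≤ L * z i) ∧
      ∀ i, |z i| ≤ 2 * M := by
  have mk : ∀ x y z : ℤ, a 0 * x + a 1 * y + a 2 * z = 0 → m ≤ L * x → m ≤ L * y → m ≤ L * z →
      |x| ≤ 2 * M → |y| ≤ 2 * M → |z| ≤ 2 * M → ∃ z : Fin 3 → ℤ, a 0 * z 0 + a 1 * z 1 + a 2 * z 2 = 0 ∧
      (∀ i, m ≤ L * z i) ∧ ∀ i, |z i| ≤ 2 * M := by
    intro x y z h hx hy hz kx ky kz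
    refine ⟨![x, y, z], h, ?_, ?_⟩
    · intro i; fin_cases i
      · exact hx
      · exact hy
      · exact hz
    · intro i; fin_cases i
      · exact kx
      · exact ky
      · exact kz
  have hM : ∀ i, 0 ≤ |a i| := fun i => abs_nonneg _
  have b1 : ∀ i, |(|a i|)| ≤ 2 * M := by
    intro i; rw [abs_abs]; have := h2 i; have := hM i; linarith
  have b2 : ∀ i j, |(|a i| + |a j|)| ≤ 2 * M := by
    intro i j
    rw [abs_of_nonneg (add_nonneg (hM i) (hM j))]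
    have := h2 i; have := h2 j; linarith
  have b3 : ∀ i j, m ≤ L * (|a i| + |a j|) := by
    intro i j
    have := h1 i
    have := mul_nonneg hL (hM j)
    linarith
  rcases lt_or_gt_of_ne (h0 0) with s0 | s0 <;> rcases lt_or_gt_of_ne (h0 1) with s1 | s1 <;>
    rcases lt_or_gt_of_ne (h0 2) with s2 | s2
  · exfalso; apply hn; intro i; fin_cases i
    · exact s0
    · exact s1
    · exact s2
  · -- - - +
    refine mk (|a 2|) (|a 2|) (|a 0| + |a 1|) ?_ (h1 2) (h1 2) (b3 0 1) (b1 2) (b1 2) (b2 0 1)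
    rw [abs_of_neg s0, abs_of_neg s1, abs_of_pos s2]; ring
  · -- - + -
    refine mk (|a 1|) (|a 0| + |a 2|) (|a 1|) ?_ (h1 1) (b3 0 2) (h1 1) (b1 1) (b2 0 2) (b1 1)
    rw [abs_of_neg s0, abs_of_pos s1, abs_of_neg s2]; ring
  · -- - + +
    refine mk (|a 1| + |a 2|) (|a 0|) (|a 0|) ?_ (b3 1 2) (h1 0) (h1 0) (b2 1 2) (b1 0) (b1 0)
    rw [abs_of_neg s0, abs_of_pos s1, abs_of_pos s2]; ring
  · -- + - -
    refine mk (|a 1| + |a 2|) (|a 0|) (|a 0|) ?_ (b3 1 2) (h1 0) (h1 0) (b2 1 2) (b1 0) (b1 0)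
    rw [abs_of_pos s0, abs_of_neg s1, abs_of_neg s2]; ring
  · -- + - +
    refine mk (|a 1|) (|a 0| + |a 2|) (|a 1|) ?_ (h1 1) (b3 0 2) (h1 1) (b1 1) (b2 0 2) (b1 1)
    rw [abs_of_pos s0, abs_of_neg s1, abs_of_pos s2]; ring
  · -- + + -
    refine mk (|a 2|) (|a 2|) (|a 0| + |a 1|) ?_ (h1 2) (h1 2) (b3 0 1) (b1 2) (b1 2) (b2 0 1)
    rw [abs_of_pos s0, abs_of_pos s1, abs_of_neg s2]; ring
  · exfalso; apply hp; intro i; fin_cases i
    · exact s0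
    · exact s1
    · exact s2

/-- a lattice plane with a short basis contains a positive vector in a short basis -/
theorem geo_core (L p : ℕ) (hL : 1 ≤ L) (hp : p.Prime) (hpL : 4 * L ^ 3 * (L + 1) ≤ p) (H : ℕ) (hH : 1 ≤ H)
    (v w : Fin 3 → ℤ) (hv : ∀ i, |v i| ≤ L * H) (hw : ∀ i, |w i| ≤ L * H)
    (ha : ∀ i, (H : ℤ) ^ 2 ≤ L * |cr v w i|) (ha2 : ∀ i, |cr v w i| ≤ (H : ℤ) ^ 2)
    (h0 : ∀ i, cr v w i ≠ 0) (hps : ¬ ∀ i, 0 < cr v w i) (hn : ¬ ∀ i, cr v w i < 0) :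
    ∃ v' w' : Fin 3 → ℤ, cr v' w' = cr v w ∧ (∀ i, |v' i| ≤ ((2 * p + 3) * L : ℕ) * H) ∧
      (∀ i, |w' i| ≤ ((2 * p + 3) * L : ℕ) * H) ∧ ∀ i, (H : ℤ) ≤ w' i := by
  obtain ⟨z, hz0, hz1, hz2⟩ := sgnvec (cr v w) L ((H : ℤ) ^ 2) ((H : ℤ) ^ 2) (by positivity) ha ha2 h0 hps hn
  have e0 : cr v w 0 = v 1 * w 2 - v 2 * w 1 := by simp [cr]
  have e1 : cr v w 1 = v 2 * w 0 - v 0 * w 2 := by simp [cr]
  have e2 : cr v w 2 = v 0 * w 1 - v 1 * w 0 := by simp [cr]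
  obtain ⟨α, β, k0, k1, k2⟩ := plane (v 0 : ℝ) (v 1 : ℝ) (v 2 : ℝ) (w 0 : ℝ) (w 1 : ℝ) (w 2 : ℝ)
    (z 0 : ℝ) (z 1 : ℝ) (z 2 : ℝ) (by
      left
      have := h0 0
      rw [e0] at this
      exact_mod_cast this) (by
      rw [e0, e1, e2] at hz0
      exact_mod_cast hz0)
  have hzz : ∀ i, (z i : ℝ) = α * v i + β * w i := by
    intro i; fin_cases i
    · exact k0
    · exact k1
    · exact k2
  rcases le_total |α| |β| with h | h
  · exact geo_step L p hL hp hpL H hH v w hv hw z hz1 hz2 (ha 0) α β hzz h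
  · have ecr : cr w (fun i => - v i) = cr v w := by
      funext i; fin_cases i <;> simp [cr] <;> ring
    obtain ⟨v', w', g1, g2, g3, g4⟩ := geo_step L p hL hp hpL H hH w (fun i => - v i) hw
      (fun i => by rw [abs_neg]; exact hv i) z hz1 hz2 (by rw [ecr]; exact ha 0) β (-α)
      (fun i => by rw [hzz i]; push_cast; ring) (by rw [abs_neg]; exact h)
    exact ⟨v', w', g1.trans ecr, g2, g3, g4⟩

/-- vectors with a small coordinate -/
theorem small_coord (A m : ℕ) :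
    (((V3 A).filter (fun a => ∃ i, |a i| ≤ (m : ℤ))).card : ℝ) ≤ 3 * ((2 * m + 1) * (2 * A + 1) ^ 2) := by
  classical
  have hsub : (V3 A).filter (fun a => ∃ i, |a i| ≤ (m : ℤ)) ⊆
      univ.biUnion (fun i : Fin 3 => Fintype.piFinset (fun j : Fin 3 =>
        if j = i then Icc (-(m : ℤ)) m else Icc (-(A : ℤ)) A)) := by
    intro a ha
    rw [mem_filter] at ha
    obtain ⟨h1, i, hi⟩ := ha
    rw [mem_biUnion]
    refine ⟨i, mem_univ _, ?_⟩
    rw [Fintype.mem_piFinset]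
    intro j
    by_cases hj : j = i
    · rw [if_pos hj, mem_Icc, hj]; exact abs_le.1 hi
    · rw [if_neg hj]
      unfold V3 at h1
      rw [Fintype.mem_piFinset] at h1
      exact h1 j
  have hcard : ∀ i : Fin 3, (Fintype.piFinset (fun j : Fin 3 =>
      if j = i then Icc (-(m : ℤ)) m else Icc (-(A : ℤ)) A)).card = (2 * m + 1) * (2 * A + 1) ^ 2 := by
    intro i
    rw [Fintype.card_piFinset]
    have e1 : (Icc (-(m : ℤ)) m).card = 2 * m + 1 := by rw [Int.card_Icc]; omega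
    have e2 : (Icc (-(A : ℤ)) A).card = 2 * A + 1 := by rw [Int.card_Icc]; omega
    rw [Fin.prod_univ_three]
    fin_cases i <;> simp [e1, e2] <;> ring
  have h1 := (card_le_card hsub).trans card_biUnion_le
  have h2 : ∑ i : Fin 3, (Fintype.piFinset (fun j : Fin 3 =>
      if j = i then Icc (-(m : ℤ)) m else Icc (-(A : ℤ)) A)).card = 3 * ((2 * m + 1) * (2 * A + 1) ^ 2) := by
    rw [sum_congr rfl (fun i _ => hcard i)]
    simp
  rw [h2] at h1
  exact_mod_cast h1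

theorem mem_V3' {H : ℕ} {a : Fin 3 → ℤ} : a ∈ V3 H ↔ ∀ i, |a i| ≤ (H : ℤ) := by
  unfold V3
  simp only [Fintype.mem_piFinset, mem_Icc, abs_le]

theorem le_dt' (v : Fin 3 → ℤ) (i : Fin 3) : v i ^ 2 ≤ dt v v := by
  unfold dt
  fin_cases i <;> simp <;> nlinarith [sq_nonneg (v 0), sq_nonneg (v 1), sq_nonneg (v 2)]

open Pool.Agent.N718.LB (S_LAT S_SHORT)

open Classical in
theorem geo_ (hlat : S_LAT) (hshort : S_SHORT) : S_GEO := by
  obtain ⟨C, hC, hS⟩ := hshort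
  intro η hη
  -- the constant K2
  obtain ⟨K2, hK21, hK2⟩ : ∃ K2 : ℕ, 1 ≤ K2 ∧ 8 * C + 1000 ≤ η * (K2 : ℝ) := by
    refine ⟨⌈(8 * C + 1000) / η⌉₊ + 1, by omega, ?_⟩
    have e1 : (8 * C + 1000) / η ≤ ((⌈(8 * C + 1000) / η⌉₊ + 1 : ℕ) : ℝ) := by
      refine (Nat.le_ceil _).trans ?_
      push_cast
      linarith
    rw [div_le_iff₀ hη] at e1
    linarith
  set L : ℕ := 2 * K2 with hLdef
  obtain ⟨p, hpL, hp⟩ := Nat.exists_infinite_primes (4 * L ^ 3 * (L + 1))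
  have hL1 : 1 ≤ L := by omega
  set K : ℕ := (2 * p + 3) * L with hK
  have hLK : L ≤ K := by rw [hK]; nlinarith
  refine ⟨K, by omega, 4 * K2 ^ 2 + 4, ?_⟩
  intro A hA H hAH hHA
  have hK2r : (1 : ℝ) ≤ K2 := by exact_mod_cast hK21
  have hA4 : 4 ≤ A := by omega
  have hH1 : 1 ≤ H := by
    rcases Nat.eq_zero_or_pos H with h | h
    · rw [h] at hAH; simp at hAH; omega
    · exact h
  have hAr : (4 : ℝ) * K2 ^ 2 + 4 ≤ A := by exact_mod_cast hA
  have hAHr : (A : ℝ) ≤ (H : ℝ) ^ 2 := by exact_mod_cast hAH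
  have hHAr : (H : ℝ) ^ 2 ≤ 4 * A := by exact_mod_cast hHA
  have hHr : (1 : ℝ) ≤ H := by exact_mod_cast hH1
  -- the short vectors
  set R : ℕ := H / K2 with hR
  have hR1 : 1 ≤ R := by
    rw [hR, Nat.le_div_iff_mul_le hK21]
    have : (K2 : ℝ) ^ 2 ≤ (H : ℝ) ^ 2 := by nlinarith [sq_nonneg (K2 : ℝ)]
    have h2 := abs_le_of_sq_le_sq this (by linarith)
    rw [abs_of_nonneg (by linarith)] at h2
    have h3 : K2 ≤ H := by exact_mod_cast h2
    omega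
  have hRH : R * K2 ≤ H := Nat.div_mul_le_self H K2
  have hRH2 : H < (R + 1) * K2 := by
    rw [hR]
    have := Nat.lt_mul_div_succ H hK21
    rw [mul_comm]
    exact this
  have hRle : (R : ℝ) * K2 ≤ H := by exact_mod_cast hRH
  have hRA : R ≤ A := by
    have h1 : (H : ℝ) ≤ A := by nlinarith
    have h2 : (R : ℝ) ≤ H := by nlinarith [(Nat.cast_nonneg R : (0:ℝ) ≤ R)]
    exact_mod_cast h2.trans h1
  have hshort := hS A R hR1 hRA
  set B1 := (V3 A).filter (fun a => ∃ v : Fin 3 → ℤ, v ≠ 0 ∧ (∀ i, |v i| ≤ R) ∧ dt a v = 0) with hB1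
  set m : ℕ := H ^ 2 / L with hm
  set B2 := (V3 A).filter (fun a => ∃ i, |a i| ≤ (m : ℤ)) with hB2
  have hB1c : (B1.card : ℝ) ≤ η / 2 * (A : ℝ) ^ 3 := by
    refine hshort.trans ?_
    have e1 : (R : ℝ) ^ 2 * K2 ^ 2 ≤ 4 * A := by
      have : ((R : ℝ) * K2) ^ 2 ≤ (H : ℝ) ^ 2 := pow_le_pow_left₀ (by positivity) hRle 2
      calc (R : ℝ) ^ 2 * K2 ^ 2 = ((R : ℝ) * K2) ^ 2 := by ring
        _ ≤ _ := this.trans hHAr
    have e2 : (R : ℝ) ^ 2 * K2 ≤ 4 * A := by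
      have : (R : ℝ) ^ 2 * K2 ≤ (R : ℝ) ^ 2 * K2 ^ 2 := by
        apply mul_le_mul_of_nonneg_left _ (by positivity)
        nlinarith
      linarith
    have e3 : 8 * C ≤ η * (K2 : ℝ) := by linarith
    have e4 : C * (R : ℝ) ^ 2 ≤ η / 2 * A := by
      have h5 : C * (R : ℝ) ^ 2 * K2 ≤ η / 2 * A * K2 := by
        calc C * (R : ℝ) ^ 2 * K2 = C * ((R : ℝ) ^ 2 * K2) := by ring
          _ ≤ C * (4 * A) := mul_le_mul_of_nonneg_left e2 hC
          _ = (8 * C) * (A / 2) := by ring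
          _ ≤ (η * K2) * (A / 2) := mul_le_mul_of_nonneg_right e3 (by positivity)
          _ = _ := by ring
      exact le_of_mul_le_mul_right h5 (by linarith)
    calc C * (A : ℝ) ^ 2 * (R : ℝ) ^ 2 = (C * (R : ℝ) ^ 2) * (A : ℝ) ^ 2 := by ring
      _ ≤ (η / 2 * A) * (A : ℝ) ^ 2 := mul_le_mul_of_nonneg_right e4 (by positivity)
      _ = _ := by ring
  have hB2c : (B2.card : ℝ) ≤ η / 2 * (A : ℝ) ^ 3 := by
    refine (small_coord A m).trans ?_
    have e1 : (m : ℝ) * L ≤ 4 * A := by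
      have : m * L ≤ H ^ 2 := Nat.div_mul_le_self _ _
      have h2 : (m : ℝ) * L ≤ (H : ℝ) ^ 2 := by exact_mod_cast this
      linarith
    have e2 : (L : ℝ) = 2 * K2 := by rw [hLdef]; push_cast; ring
    have e3 : (2 * (A : ℝ) + 1) ≤ 3 * A := by nlinarith
    have e4 : (2 * (A : ℝ) + 1) ^ 2 ≤ 9 * A ^ 2 := by nlinarith
    have e5 : (2 * (m : ℝ) + 1) * K2 ≤ 5 * A := by
      rw [e2] at e1
      nlinarith
    have e6 : 3 * ((2 * (m : ℝ) + 1) * (2 * A + 1) ^ 2) * K2 ≤ η / 2 * (A : ℝ) ^ 3 * K2 := by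
      calc 3 * ((2 * (m : ℝ) + 1) * (2 * A + 1) ^ 2) * K2
          = 3 * ((2 * (m : ℝ) + 1) * K2) * (2 * A + 1) ^ 2 := by ring
        _ ≤ (3 * (5 * (A : ℝ))) * (9 * (A : ℝ) ^ 2) := by
            apply mul_le_mul _ e4 (by positivity) (by positivity)
            linarith
        _ = 135 * (A : ℝ) ^ 3 := by ring
        _ ≤ (η * K2 / 2) * (A : ℝ) ^ 3 := by
            apply mul_le_mul_of_nonneg_right _ (by positivity)
            linarith
        _ = _ := by ring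
    exact le_of_mul_le_mul_right e6 (by linarith)
  have hsub : (V3 A).filter (fun a => (∀ i, a i ≠ 0) ∧ ¬ (∀ i, 0 < a i) ∧ ¬ (∀ i, a i < 0) ∧
      (∀ p : ℕ, p.Prime → ¬ ∀ i, (p : ℤ) ∣ a i) ∧ ¬ Gd K H a) ⊆ B1 ∪ B2 := by
    intro a ha
    rw [mem_filter] at ha
    obtain ⟨haV, h0, hpos, hneg, hprim, hG⟩ := ha
    rw [mem_union]
    by_cases hB : a ∈ B1
    · exact Or.inl hB
    right
    by_contra hB'
    apply hG
    have hbig : ∀ i, (H : ℤ) ^ 2 ≤ L * |a i| := by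
      intro i
      by_contra hcon
      push Not at hcon
      apply hB'
      rw [hB2, mem_filter]
      refine ⟨haV, i, ?_⟩
      rw [hm]
      push_cast
      rw [Int.le_ediv_iff_mul_le (by exact_mod_cast hL1)]
      rw [mul_comm]
      exact hcon.le
    obtain ⟨t, ht⟩ := bez3 a hprim
    have ht' : dt t a = 1 := by
      rw [← ht]; simp only [dt]; ring
    obtain ⟨v, w, hvw, hv0, hvw1, hvw2⟩ := hlat a ⟨t, ht'⟩
    have horth : dt a v = 0 := by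
      rw [← hvw]
      simp [dt, cr]
      ring
    have hbigv : ∃ i, (R : ℤ) < |v i| := by
      by_contra hcon
      push Not at hcon
      apply hB
      rw [hB1, mem_filter]
      exact ⟨haV, v, hv0, hcon, horth⟩
    obtain ⟨i, hi⟩ := hbigv
    -- lower bound for the length of v
    have hvv : (H : ℤ) ^ 2 ≤ (K2 : ℤ) ^ 2 * dt v v := by
      have e1 : (H : ℤ) ≤ K2 * |v i| := by
        have h1 : (H : ℤ) < (R + 1) * K2 := by exact_mod_cast hRH2
        have h2 : (R : ℤ) + 1 ≤ |v i| := hi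
        have h3 : ((R : ℤ) + 1) * K2 ≤ |v i| * K2 := mul_le_mul_of_nonneg_right h2 (by positivity)
        linarith
      have e2 : (H : ℤ) ^ 2 ≤ (K2 * |v i|) ^ 2 := pow_le_pow_left₀ (by positivity) e1 2
      rw [mul_pow, sq_abs] at e2
      exact e2.trans (mul_le_mul_of_nonneg_left (le_dt' v i) (by positivity))
    have haa : dt a a ≤ 3 * (A : ℤ) ^ 2 := by
      have e1 : ∀ j, (a j) ^ 2 ≤ (A : ℤ) ^ 2 := by
        intro j
        rw [← sq_abs]
        exact pow_le_pow_left₀ (abs_nonneg _) (mem_V3'.1 haV j) 2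
      have := e1 0
      have := e1 1
      have := e1 2
      unfold dt
      nlinarith
    have hAH' : (A : ℤ) ≤ (H : ℤ) ^ 2 := by exact_mod_cast hAH
    have hHpos : (0 : ℤ) < H := by exact_mod_cast hH1
    have hww : dt w w ≤ (L * H : ℤ) ^ 2 := by
      have e2 : 0 ≤ dt w w := by
        unfold dt; nlinarith [sq_nonneg (w 0), sq_nonneg (w 1), sq_nonneg (w 2)]
      have e3 : (H : ℤ) ^ 2 * dt w w ≤ (H : ℤ) ^ 2 * (L * H : ℤ) ^ 2 := by
        have c1 : (H : ℤ) ^ 2 * dt w w ≤ (K2 : ℤ) ^ 2 * dt v v * dt w w := mul_le_mul_of_nonneg_right hvv e2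
        have c2 : (K2 : ℤ) ^ 2 * (3 * dt v v * dt w w) ≤ (K2 : ℤ) ^ 2 * (4 * (3 * (A : ℤ) ^ 2)) := by
          apply mul_le_mul_of_nonneg_left _ (by positivity)
          linarith
        have c3 : (A : ℤ) ^ 2 ≤ ((H : ℤ) ^ 2) ^ 2 := pow_le_pow_left₀ (by positivity) hAH' 2
        have c4 : (K2 : ℤ) ^ 2 * (A : ℤ) ^ 2 ≤ (K2 : ℤ) ^ 2 * ((H : ℤ) ^ 2) ^ 2 :=
          mul_le_mul_of_nonneg_left c3 (by positivity)
        have c5 : (L : ℤ) = 2 * K2 := by rw [hLdef]; push_cast; ring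
        rw [c5]
        calc (H : ℤ) ^ 2 * dt w w ≤ (K2 : ℤ) ^ 2 * dt v v * dt w w := c1
          _ ≤ 4 * ((K2 : ℤ) ^ 2 * (A : ℤ) ^ 2) := by linarith
          _ ≤ 4 * ((K2 : ℤ) ^ 2 * ((H : ℤ) ^ 2) ^ 2) := by linarith
          _ = _ := by ring
      exact le_of_mul_le_mul_left e3 (by positivity)
    have hcoord : ∀ u : Fin 3 → ℤ, dt u u ≤ dt w w → ∀ j, |u j| ≤ L * H := by
      intro u hu j
      have e1 : u j ^ 2 ≤ (L * H : ℤ) ^ 2 := (le_dt' u j).trans (hu.trans hww)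
      exact abs_le_of_sq_le_sq e1 (by positivity)
    obtain ⟨v', w', g1, g2, g3, g4⟩ := geo_core L p hL1 hp hpL H hH1 v w (hcoord v hvw1) (hcoord w le_rfl)
      (by rw [hvw]; exact hbig) (by
        intro j; rw [hvw]
        exact (mem_V3'.1 haV j).trans hAH') (by rw [hvw]; exact h0) (by rw [hvw]; exact hpos)
      (by rw [hvw]; exact hneg)
    have hLK' : (L : ℤ) ≤ K := by exact_mod_cast hLK
    have hK1' : (1 : ℤ) ≤ K := by
      have : (1 : ℤ) ≤ L := by exact_mod_cast hL1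
      linarith
    refine ⟨fun j => (hbig j).trans (mul_le_mul_of_nonneg_right hLK' (abs_nonneg _)), v', w',
      g1.trans hvw, g2, g3, fun j => ?_⟩
    have h4 := g4 j
    have h5 : (0 : ℤ) ≤ w' j := by linarith
    nlinarith
  calc _ ≤ ((B1 ∪ B2).card : ℝ) := by exact_mod_cast card_le_card hsub
    _ ≤ (B1.card : ℝ) + B2.card := by exact_mod_cast card_union_le _ _
    _ ≤ η * (A : ℝ) ^ 3 := by linarith

theorem geo : S_GEO := geo_ Pool.Agent.N654.LB.lat_ Pool.Agent.N232.LB.short_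

end Pool.Agent.L7h47.BE
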