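import Pool.Agent.L7h47.BE.Locu

/-!
Project BE (helper8), part GEO: a positive vector in a bounded basis.
-/

set_option autoImplicit false
set_option linter.all false

namespace Pool.Agent.L7h47.BE

open Finset
open Pool.Agent.N718.LB (V3 cr dt)
open Pool.Agent.L7h8.BE

/-- the main step: `z` positive, `z = α v + β w`, `|α| ≤ |β|` -/
theorem geo_step (L p : ℕ) (hL : 1 ≤ L) (hp : p.Prime) (hpL : 4 * L ^ 3 * (L + 1) ≤ p) (H : ℕ) (hH : 1 ≤ H)
    (v w : Fin 3 → ℤ) (hv : ∀ i, |v i| ≤ L * H) (hw : ∀ i, |w i| ≤ L * H)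
    (z : Fin 3 → ℤ) (hz : ∀ i, (H : ℤ) ^ 2 ≤ L * z i) (hz2 : ∀ i, |z i| ≤ 2 * (H : ℤ) ^ 2)
    (ha : (H : ℤ) ^ 2 ≤ L * |cr v w 0|)
    (α β : ℝ) (hzz : ∀ i, (z i : ℝ) = α * v i + β * w i) (hαβ : |α| ≤ |β|) :
    ∃ v' w' : Fin 3 → ℤ, cr v' w' = cr v w ∧ (∀ i, |v' i| ≤ ((2 * p + 3) * L : ℕ) * H) ∧
      (∀ i, |w' i| ≤ ((2 * p + 3) * L : ℕ) * H) ∧ ∀ i, (H : ℤ) ≤ w' i := by
  have hH0 : (0 : ℝ) < H := by exact_mod_cast hH
  have hL0 : (0 : ℝ) < L := by exact_mod_cast hL
  have hL1 : (1 : ℝ) ≤ L := by exact_mod_cast hL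
  have hp0 : (0 : ℝ) < p := by exact_mod_cast hp.pos
  -- β ≠ 0
  have hβ0 : β ≠ 0 := by
    intro h
    rw [h, abs_zero] at hαβ
    have hα : α = 0 := abs_nonpos_iff.1 hαβ
    have h1 := hzz 0
    rw [h, hα] at h1
    simp only [zero_mul, add_zero] at h1
    have h2 : z 0 = 0 := by exact_mod_cast h1
    have h3 := hz 0
    rw [h2, mul_zero] at h3
    have : (0 : ℤ) < (H : ℤ) ^ 2 := by positivity
    linarith
  have hβpos : 0 < |β| := abs_pos.2 hβ0
  -- the upper bound for β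
  have hβ : |β| ≤ 4 * L ^ 2 * H := by
    have e1 : β * ((cr v w 0 : ℤ) : ℝ) = v 1 * z 2 - v 2 * z 1 := by
      have : cr v w 0 = v 1 * w 2 - v 2 * w 1 := by simp [cr]
      rw [this, hzz 1, hzz 2]
      push_cast
      ring
    have e2 : |β| * |((cr v w 0 : ℤ) : ℝ)| ≤ 4 * L * H ^ 3 := by
      rw [← abs_mul, e1]
      have a1 : |(v 1 : ℝ)| ≤ L * H := by exact_mod_cast hv 1
      have a2 : |(v 2 : ℝ)| ≤ L * H := by exact_mod_cast hv 2
      have a3 : |(z 1 : ℝ)| ≤ 2 * H ^ 2 := by exact_mod_cast hz2 1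
      have a4 : |(z 2 : ℝ)| ≤ 2 * H ^ 2 := by exact_mod_cast hz2 2
      have b1 : |(v 1 : ℝ) * z 2| ≤ (L * H) * (2 * H ^ 2) := by
        rw [abs_mul]; exact mul_le_mul a1 a4 (abs_nonneg _) (by positivity)
      have b2 : |(v 2 : ℝ) * z 1| ≤ (L * H) * (2 * H ^ 2) := by
        rw [abs_mul]; exact mul_le_mul a2 a3 (abs_nonneg _) (by positivity)
      have b3 := abs_sub ((v 1 : ℝ) * z 2) ((v 2 : ℝ) * z 1)
      calc _ ≤ |(v 1 : ℝ) * z 2| + |(v 2 : ℝ) * z 1| := b3
        _ ≤ (L * H) * (2 * H ^ 2) + (L * H) * (2 * H ^ 2) := add_le_add b1 b2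
        _ = _ := by ring
    have e3 : (H : ℝ) ^ 2 ≤ L * |((cr v w 0 : ℤ) : ℝ)| := by exact_mod_cast ha
    have e4 : |β| * (H : ℝ) ^ 2 ≤ 4 * L ^ 2 * H ^ 3 := by
      calc |β| * (H : ℝ) ^ 2 ≤ |β| * (L * |((cr v w 0 : ℤ) : ℝ)|) := mul_le_mul_of_nonneg_left e3 (abs_nonneg _)
        _ = L * (|β| * |((cr v w 0 : ℤ) : ℝ)|) := by ring
        _ ≤ L * (4 * L * H ^ 3) := mul_le_mul_of_nonneg_left e2 hL0.le
        _ = _ := by ring
    have e5 : |β| * (H : ℝ) ^ 2 ≤ (4 * L ^ 2 * H) * (H : ℝ) ^ 2 := by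
      calc _ ≤ _ := e4
        _ = _ := by ring
    exact le_of_mul_le_mul_right e5 (by positivity)
  -- the sign of β
  obtain ⟨e, he, heβ⟩ : ∃ e : ℤ, (e = 1 ∨ e = -1) ∧ β = e * |β| := by
    rcases lt_or_gt_of_ne hβ0 with h | h
    · exact ⟨-1, Or.inr rfl, by rw [abs_of_neg h]; push_cast; ring⟩
    · exact ⟨1, Or.inl rfl, by rw [abs_of_pos h]; push_cast; ring⟩
  have hee : e * e = 1 := by rcases he with h | h <;> rw [h] <;> norm_num
  set α' : ℝ := α / |β| with hα'
  have hα'1 : |α'| ≤ 1 := by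
    rw [hα', abs_div, abs_abs, div_le_one hβpos]; exact hαβ
  -- the multiplier
  obtain ⟨i, hi1, hi2, hpi⟩ : ∃ i : ℤ, (p : ℝ) * α' - 1 ≤ i ∧ (i : ℝ) ≤ p * α' + 1 ∧ ¬ (p : ℤ) ∣ i := by
    by_cases h : (p : ℤ) ∣ ⌊(p : ℝ) * α'⌋
    · refine ⟨⌊(p : ℝ) * α'⌋ + 1, ?_, ?_, ?_⟩
      · have := Int.sub_one_lt_floor ((p : ℝ) * α')
        push_cast; linarith
      · have := Int.floor_le ((p : ℝ) * α')
        push_cast; linarith
      · intro h2
        have h3 := (Int.dvd_add_right h).1 h2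
        have h4 : p ∣ 1 := by exact_mod_cast h3
        exact hp.one_lt.ne' (Nat.dvd_one.1 h4)
    · refine ⟨⌊(p : ℝ) * α'⌋, ?_, ?_, h⟩
      · have := Int.sub_one_lt_floor ((p : ℝ) * α')
        linarith
      · have := Int.floor_le ((p : ℝ) * α')
        linarith
  have hiabs : |i| ≤ p + 1 := by
    have h1 := abs_le.1 hα'1
    have h2 : |(i : ℝ)| ≤ p + 1 := by
      rw [abs_le]
      constructor <;> nlinarith
    exact_mod_cast h2
  -- Bezout
  obtain ⟨x, y, hxy, hx, hy⟩ : ∃ x y : ℤ, x * (e * p) - y * i = 1 ∧ |x| ≤ p + 2 ∧ |y| ≤ p := by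
    have hcop : IsCoprime (p : ℤ) i :=
      ((Nat.prime_iff_prime_int.1 hp).coprime_iff_not_dvd).2 hpi
    obtain ⟨s, t, hst⟩ := hcop
    -- s p + t i = 1; y = (-t) mod p
    have hppos : (0 : ℤ) < p := by exact_mod_cast hp.pos
    have h1 := Int.emod_add_mul_ediv (-t) p
    refine ⟨e * (s - (-t) / p * i), (-t) % p, ?_, ?_, ?_⟩
    · have : (-t) % (p : ℤ) = -t - p * ((-t) / p) := by linarith
      rw [this]
      linear_combination hst + (s * p - (-t) / p * i * p) * hee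
    · have hy0 := Int.emod_nonneg (-t) hppos.ne'
      have hy1 := Int.emod_lt_of_pos (-t) hppos
      have h2 : p * (s - (-t) / p * i) = 1 + ((-t) % p) * i := by
        have : (-t) % (p : ℤ) = -t - p * ((-t) / p) := by linarith
        rw [this]; linear_combination hst
      have h3 : (p : ℤ) * |s - (-t) / p * i| ≤ p * (p + 2) := by
        rw [← abs_of_pos hppos, ← abs_mul, abs_of_pos hppos, h2]
        have h4 := abs_add_le (1 : ℤ) (((-t) % p) * i)
        have h5 : |((-t) % p) * i| ≤ (p : ℤ) * (p + 1) := by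
          rw [abs_mul, abs_of_nonneg hy0]
          exact mul_le_mul hy1.le hiabs (abs_nonneg _) hppos.le
        have h6 : |(1 : ℤ)| = 1 := abs_one
        nlinarith
      have h4 := le_of_mul_le_mul_left h3 hppos
      have h5 : |e| = 1 := by rcases he with h | h <;> rw [h] <;> simp
      rw [abs_mul, h5, one_mul]
      exact h4
    · have hy0 := Int.emod_nonneg (-t) hppos.ne'
      have hy1 := Int.emod_lt_of_pos (-t) hppos
      rw [abs_of_nonneg hy0]; exact hy1.le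
  have habse : |e| = 1 := by rcases he with h | h <;> rw [h] <;> simp
  refine ⟨fun j => x * v j + y * w j, fun j => i * v j + e * p * w j, ?_, ?_, ?_, ?_⟩
  · funext j
    fin_cases j
    · simp [cr]; linear_combination (v 1 * w 2 - v 2 * w 1) * hxy
    · simp [cr]; linear_combination (v 2 * w 0 - v 0 * w 2) * hxy
    · simp [cr]; linear_combination (v 0 * w 1 - v 1 * w 0) * hxy
  · intro j
    have h1 := abs_add_le (x * v j) (y * w j)
    have h2 : |x * v j| ≤ (p + 2) * (L * H) := by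
      rw [abs_mul]; exact mul_le_mul hx (hv j) (abs_nonneg _) (by positivity)
    have h3 : |y * w j| ≤ p * (L * H) := by
      rw [abs_mul]; exact mul_le_mul hy (hw j) (abs_nonneg _) (by positivity)
    have h4 : (0 : ℤ) ≤ L * H := by positivity
    show |x * v j + y * w j| ≤ _
    push_cast
    nlinarith
  · intro j
    have h1 := abs_add_le (i * v j) (e * p * w j)
    have h2 : |i * v j| ≤ (p + 1) * (L * H) := by
      rw [abs_mul]; exact mul_le_mul hiabs (hv j) (abs_nonneg _) (by positivity)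
    have h3 : |e * p * w j| ≤ p * (L * H) := by
      rw [abs_mul, abs_mul, habse, one_mul, abs_of_nonneg (by positivity : (0:ℤ) ≤ p)]
      exact mul_le_mul_of_nonneg_left (hw j) (by positivity)
    have h4 : (0 : ℤ) ≤ L * H := by positivity
    show |i * v j + e * p * w j| ≤ _
    push_cast
    nlinarith
  · intro j
    have hkey : (H : ℝ) ≤ (i : ℝ) * v j + e * p * w j := by
      -- w' = p z / |β| + (i - p α') v
      have h1 : (i : ℝ) * v j + e * p * w j = p * (z j / |β|) + (i - p * α') * v j := by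
        rw [hzz j, hα']
        have h2 : β / |β| = e := by
          rw [div_eq_iff hβpos.ne']; exact heβ
        have h3 : (α * v j + β * w j) / |β| = α / |β| * v j + β / |β| * w j := by ring
        rw [h3, h2]
        ring
      rw [h1]
      have h2 : (H : ℝ) / (4 * L ^ 3) ≤ z j / |β| := by
        rw [div_le_div_iff₀ (by positivity) hβpos]
        have h3 : (H : ℝ) ^ 2 ≤ L * z j := by exact_mod_cast hz j
        calc (H : ℝ) * |β| ≤ H * (4 * L ^ 2 * H) := mul_le_mul_of_nonneg_left hβ hH0.le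
          _ = 4 * L ^ 2 * H ^ 2 := by ring
          _ ≤ 4 * L ^ 2 * (L * z j) := mul_le_mul_of_nonneg_left h3 (by positivity)
          _ = _ := by ring
      have h3 : (p : ℝ) * ((H : ℝ) / (4 * L ^ 3)) ≤ p * (z j / |β|) := mul_le_mul_of_nonneg_left h2 hp0.le
      have h4 : ((L : ℝ) + 1) * H ≤ p * ((H : ℝ) / (4 * L ^ 3)) := by
        rw [mul_div_assoc', le_div_iff₀ (by positivity)]
        have h5 : (4 * (L : ℝ) ^ 3 * (L + 1)) ≤ p := by exact_mod_cast hpL
        nlinarith [mul_le_mul_of_nonneg_right h5 hH0.le]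
      have h5 : |(i - p * α') * v j| ≤ L * H := by
        rw [abs_mul]
        have h6 : |(i : ℝ) - p * α'| ≤ 1 := by
          rw [abs_le]; constructor <;> linarith
        have h7 : |(v j : ℝ)| ≤ L * H := by exact_mod_cast hv j
        calc _ ≤ 1 * (L * (H : ℝ)) := mul_le_mul h6 h7 (abs_nonneg _) (by norm_num)
          _ = _ := one_mul _
      have h6 := neg_abs_le ((i - p * α') * v j)
      linarith
    exact_mod_cast hkey

end Pool.Agent.L7h47.BE
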