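import Pool.Agent.L7h8.BE.Stm

/-!
Project BE (helper8), part LOCU: a point of the lattice with coordinates coprime to `M`.
-/

set_option autoImplicit false
set_option linter.all false

namespace Pool.Agent.L7h47.BE

open Finset
open Pool.Agent.N718.LB (V3 cr dt)
open Pool.Agent.L7h8.BE

/-- In a field with an element `e ≠ 0, e ≠ c/a` -/
lemma two_terms (p : ℕ) [Fact p.Prime] (hp : 3 ≤ p) (a b c : ZMod p) (ha : a ≠ 0) (hb : b ≠ 0) :
    ∃ x y : ZMod p, x ≠ 0 ∧ y ≠ 0 ∧ a * x + b * y = c := by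
  classical
  obtain ⟨x, hx⟩ : ∃ x : ZMod p, x ∉ ({0, c / a} : Finset (ZMod p)) := by
    have h1 : (({0, c / a} : Finset (ZMod p))).card < (univ : Finset (ZMod p)).card := by
      rw [card_univ, ZMod.card]
      have := card_le_two (a := (0 : ZMod p)) (b := c / a)
      omega
    obtain ⟨x, -, hx⟩ := exists_mem_notMem_of_card_lt_card h1
    exact ⟨x, hx⟩
  simp only [mem_insert, mem_singleton, not_or] at hx
  refine ⟨x, (c - a * x) / b, hx.1, ?_, ?_⟩
  · rw [Ne, div_eq_zero_iff, not_or]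
    refine ⟨?_, hb⟩
    intro h
    apply hx.2
    rw [sub_eq_zero] at h
    rw [h]; field_simp
  · field_simp; ring

/-- a vector with coordinates different from zero and with a given product with `a` -/
lemma vec_prime (p : ℕ) [Fact p.Prime] (hp : 3 ≤ p) (a : Fin 3 → ZMod p) (d : ZMod p)
    (h0 : a 0 ≠ 0 ∨ a 1 ≠ 0 ∨ a 2 ≠ 0)
    (h1 : ∀ i j, i ≠ j → a i = 0 → a j = 0 → d ≠ 0) :
    ∃ P : Fin 3 → ZMod p, (∀ i, P i ≠ 0) ∧ a 0 * P 0 + a 1 * P 1 + a 2 * P 2 = d := by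
  have mk : ∀ x y z : ZMod p, x ≠ 0 → y ≠ 0 → z ≠ 0 → a 0 * x + a 1 * y + a 2 * z = d →
      ∃ P : Fin 3 → ZMod p, (∀ i, P i ≠ 0) ∧ a 0 * P 0 + a 1 * P 1 + a 2 * P 2 = d := by
    intro x y z hx hy hz h
    refine ⟨![x, y, z], ?_, ?_⟩
    · intro i; fin_cases i
      · exact hx
      · exact hy
      · exact hz
    · exact h
  by_cases a0 : a 0 = 0
  · by_cases a1 : a 1 = 0
    · have a2 : a 2 ≠ 0 := by
        rcases h0 with h | h | h
        · exact absurd a0 h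
        · exact absurd a1 h
        · exact h
      have hd := h1 0 1 (by decide) a0 a1
      refine mk 1 1 (d / a 2) one_ne_zero one_ne_zero (div_ne_zero hd a2) ?_
      rw [a0, a1]; field_simp; ring
    · by_cases a2 : a 2 = 0
      · have hd := h1 0 2 (by decide) a0 a2
        refine mk 1 (d / a 1) 1 one_ne_zero (div_ne_zero hd a1) one_ne_zero ?_
        rw [a0, a2]; field_simp; ring
      · obtain ⟨x, y, hx, hy, h⟩ := two_terms p hp (a 1) (a 2) d a1 a2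
        refine mk 1 x y one_ne_zero hx hy ?_
        rw [a0]; linear_combination h
  · by_cases a1 : a 1 = 0
    · by_cases a2 : a 2 = 0
      · have hd := h1 1 2 (by decide) a1 a2
        refine mk (d / a 0) 1 1 (div_ne_zero hd a0) one_ne_zero one_ne_zero ?_
        rw [a1, a2]; field_simp; ring
      · obtain ⟨x, y, hx, hy, h⟩ := two_terms p hp (a 0) (a 2) d a0 a2
        refine mk x 1 y hx one_ne_zero hy ?_
        rw [a1]; linear_combination h
    · obtain ⟨x, y, hx, hy, h⟩ := two_terms p hp (a 0) (a 1) (d - a 2) a0 a1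
      refine mk x y 1 hx hy one_ne_zero ?_
      linear_combination h

/-- the plane orthogonal to the cross product -/
lemma plane {F : Type*} [Field F] (v0 v1 v2 w0 w1 w2 z0 z1 z2 : F)
    (hne : v1 * w2 - v2 * w1 ≠ 0 ∨ v2 * w0 - v0 * w2 ≠ 0 ∨ v0 * w1 - v1 * w0 ≠ 0)
    (hz : (v1 * w2 - v2 * w1) * z0 + (v2 * w0 - v0 * w2) * z1 + (v0 * w1 - v1 * w0) * z2 = 0) :
    ∃ x y : F, z0 = x * v0 + y * w0 ∧ z1 = x * v1 + y * w1 ∧ z2 = x * v2 + y * w2 := by
  rcases hne with h | h | h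
  · obtain ⟨D, hD⟩ : ∃ D, D = v1 * w2 - v2 * w1 := ⟨_, rfl⟩
    rw [← hD] at h hz
    refine ⟨(z1 * w2 - z2 * w1) / D, (v1 * z2 - v2 * z1) / D, ?_, ?_, ?_⟩
    · field_simp; linear_combination hz
    · field_simp; rw [hD]; ring
    · field_simp; rw [hD]; ring
  · obtain ⟨D, hD⟩ : ∃ D, D = v2 * w0 - v0 * w2 := ⟨_, rfl⟩
    rw [← hD] at h hz
    refine ⟨(z2 * w0 - z0 * w2) / D, (v2 * z0 - v0 * z2) / D, ?_, ?_, ?_⟩
    · field_simp; rw [hD]; ring
    · field_simp; linear_combination hz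
    · field_simp; rw [hD]; ring
  · obtain ⟨D, hD⟩ : ∃ D, D = v0 * w1 - v1 * w0 := ⟨_, rfl⟩
    rw [← hD] at h hz
    refine ⟨(z0 * w1 - z1 * w0) / D, (v0 * z1 - v1 * z0) / D, ?_, ?_, ?_⟩
    · field_simp; rw [hD]; ring
    · field_simp; rw [hD]; ring
    · field_simp; linear_combination hz

/-- the local statement -/
lemma locu_prime (p : ℕ) (hp : p.Prime) (u v w : Fin 3 → ℤ) (h : Adq (cr v w) (dt (cr v w) u)) :
    ∃ b0 b1 : ℕ, ∀ i, ((u i : ZMod p) + (b0 : ZMod p) * (v i : ZMod p) + (b1 : ZMod p) * (w i : ZMod p)) ≠ 0 := by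
  have := Fact.mk hp
  obtain ⟨-, -, -, hev, hprim, hpair⟩ := h
  set a : Fin 3 → ℤ := cr v w with hadef
  have ea0 : a 0 = v 1 * w 2 - v 2 * w 1 := by rw [hadef]; simp [cr]
  have ea1 : a 1 = v 2 * w 0 - v 0 * w 2 := by rw [hadef]; simp [cr]
  have ea2 : a 2 = v 0 * w 1 - v 1 * w 0 := by rw [hadef]; simp [cr]
  have ed : dt a u = a 0 * u 0 + a 1 * u 1 + a 2 * u 2 := rfl
  have hz : ∀ z : ℤ, (z : ZMod p) = 0 ↔ (p : ℤ) ∣ z := fun z => ZMod.intCast_zmod_eq_zero_iff_dvd z p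
  have hne : ((a 0 : ℤ) : ZMod p) ≠ 0 ∨ ((a 1 : ℤ) : ZMod p) ≠ 0 ∨ ((a 2 : ℤ) : ZMod p) ≠ 0 := by
    by_contra hcon
    push Not at hcon
    apply hprim p hp
    intro i
    fin_cases i
    · exact (hz _).1 hcon.1
    · exact (hz _).1 hcon.2.1
    · exact (hz _).1 hcon.2.2
  -- the vector
  obtain ⟨P, hP0, hP⟩ : ∃ P : Fin 3 → ZMod p, (∀ i, P i ≠ 0) ∧
      ((a 0 : ℤ) : ZMod p) * P 0 + ((a 1 : ℤ) : ZMod p) * P 1 + ((a 2 : ℤ) : ZMod p) * P 2 =
        ((dt a u : ℤ) : ZMod p) := by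
    rcases hp.two_le.lt_or_eq with h3 | h2
    · refine vec_prime p h3 (fun i => ((a i : ℤ) : ZMod p)) _ hne ?_
      intro i j hij hi hj hd
      exact hpair i j hij p hp ((hz _).1 hi) ((hz _).1 hj) ((hz _).1 hd)
    · refine ⟨fun _ => 1, fun _ => one_ne_zero, ?_⟩
      have h5 : (2 : ℤ) ∣ a 0 + a 1 + a 2 - dt a u := hev.two_dvd
      have h6 : (p : ℤ) ∣ a 0 + a 1 + a 2 - dt a u := by rw [← h2]; exact h5
      have h7 := (hz _).2 h6
      push_cast at h7
      linear_combination h7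
  obtain ⟨x, y, hx0, hx1, hx2⟩ := plane (v 0 : ZMod p) (v 1 : ZMod p) (v 2 : ZMod p)
    (w 0 : ZMod p) (w 1 : ZMod p) (w 2 : ZMod p) (P 0 - u 0) (P 1 - u 1) (P 2 - u 2) (by
      rw [ea0, ea1, ea2] at hne
      push_cast at hne
      exact hne) (by
      rw [ed] at hP
      rw [ea0, ea1, ea2] at hP
      push_cast at hP
      linear_combination hP)
  refine ⟨x.val, y.val, fun i => ?_⟩
  rw [ZMod.natCast_zmod_val, ZMod.natCast_zmod_val]
  fin_cases i
  · show (u 0 : ZMod p) + x * (v 0 : ZMod p) + y * (w 0 : ZMod p) ≠ 0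
    have : (u 0 : ZMod p) + x * (v 0 : ZMod p) + y * (w 0 : ZMod p) = P 0 := by
      linear_combination -hx0
    rw [this]; exact hP0 0
  · show (u 1 : ZMod p) + x * (v 1 : ZMod p) + y * (w 1 : ZMod p) ≠ 0
    have : (u 1 : ZMod p) + x * (v 1 : ZMod p) + y * (w 1 : ZMod p) = P 1 := by
      linear_combination -hx1
    rw [this]; exact hP0 1
  · show (u 2 : ZMod p) + x * (v 2 : ZMod p) + y * (w 2 : ZMod p) ≠ 0
    have : (u 2 : ZMod p) + x * (v 2 : ZMod p) + y * (w 2 : ZMod p) = P 2 := by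
      linear_combination -hx2
    rw [this]; exact hP0 2

theorem locu : S_LOCU := by
  intro M hM u v w hA
  have h1 : ∀ p : ℕ, ∃ b : ℕ × ℕ, p.Prime →
      ∀ i, ((u i : ZMod p) + (b.1 : ZMod p) * (v i : ZMod p) + (b.2 : ZMod p) * (w i : ZMod p)) ≠ 0 := by
    intro p
    by_cases hp : p.Prime
    · obtain ⟨b0, b1, hb⟩ := locu_prime p hp u v w hA
      exact ⟨(b0, b1), fun _ => hb⟩
    · exact ⟨(0, 0), fun h => absurd h hp⟩
  choose b hb using h1
  have hcop : Set.Pairwise (M.primeFactors : Set ℕ) (Function.onFun Nat.Coprime (fun p : ℕ => p)) := by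
    intro p hp q hq hpq
    exact (Nat.coprime_primes (Nat.prime_of_mem_primeFactors hp)
      (Nat.prime_of_mem_primeFactors hq)).2 hpq
  have hne : ∀ p ∈ M.primeFactors, p ≠ 0 := fun p hp => (Nat.prime_of_mem_primeFactors hp).ne_zero
  obtain ⟨a0, ha0⟩ := Nat.chineseRemainderOfFinset (fun p => (b p).1) (fun p => p) M.primeFactors
    hne hcop
  obtain ⟨a1, ha1⟩ := Nat.chineseRemainderOfFinset (fun p => (b p).2) (fun p => p) M.primeFactors
    hne hcop
  refine ⟨a0, a1, fun i => ?_⟩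
  rw [Int.isCoprime_iff_gcd_eq_one]
  by_contra hg
  obtain ⟨p, hp, hpg⟩ := Nat.exists_prime_and_dvd hg
  have hpM : p ∣ M := by
    have := hpg.trans (Int.gcd_dvd_natAbs_right _ _)
    simpa using this
  have hpv : (p : ℤ) ∣ u i + a0 * v i + a1 * w i :=
    (Int.natCast_dvd_natCast.2 hpg).trans (Int.gcd_dvd_left _ _)
  have hmem : p ∈ M.primeFactors := Nat.mem_primeFactors.2 ⟨hp, hpM, by omega⟩
  have e0 : ((a0 : ℕ) : ZMod p) = ((b p).1 : ℕ) := (ZMod.natCast_eq_natCast_iff _ _ _).2 (ha0 p hmem)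
  have e1 : ((a1 : ℕ) : ZMod p) = ((b p).2 : ℕ) := (ZMod.natCast_eq_natCast_iff _ _ _).2 (ha1 p hmem)
  apply hb p hp i
  rw [← e0, ← e1]
  have h2 := (ZMod.intCast_zmod_eq_zero_iff_dvd (u i + a0 * v i + a1 * w i) p).2 hpv
  push_cast at h2
  exact h2

end Pool.Agent.L7h47.BE
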